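import Pool.Agent.Lib.MP_417c68_gt_P.J.Main

/-!
# MP_417c68_gt, project P, module J/Crit: the criterion for rigid factors

PROOFS.
* `crit`: `std_iff`, `Bdg.cp_iff`, `Bdg.exists_grp`, `LTS.rigid_mp`, `LTS.rigid_mpr` with `π` from
  `dcm` and
  `rig_of`.  Translation of the condition: `π i x = 0` for all `i ∈ s` iff `x` corresponds to an
  element
  of `⨆ j ∈ sᶜ, P j`.
* `rk1P`, `twoAP`: `rig_to` with `LTS.rk1_rig`, `LTS.twoA_rig`; `T x y = 0` iff `X * Y = Y * X`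
  (for symmetric `X`,
  `Y` in `pS G`: `ip [X, Y] [X, Y] = 0`).  `B.dn (P j)` is an ideal: `T x y z = T (π j x) (π j y) z
  ∈ P j` for
  `z ∈ P j`.
-/

noncomputable section

namespace Pool.Agent.MP_417c68_gt

open Matrix NormedSpace Pool.Agent.MP417P Module

variable {n : ℕ} {N : Fin n → ℕ} {G H : Subgroup (Alg N)ˣ} {m : ℕ}
  {P : Fin m → Submodule ℝ (Alg N)}

/-- for some set `J` of indices outside `A`: the projection of `𝔭(H)` to the sum of the `P j`,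
`j ∈ J`, is onto and the projection to the sum of the `P j`, `j ∈ J ∪ A`, is injective -/
def CritP (G : Subgroup (Alg N)ˣ) (P : Fin m → Submodule ℝ (Alg N)) (A : Finset (Fin m))
    (H : Subgroup (Alg N)ˣ) : Prop :=
  ∃ J : Finset (Fin m), Disjoint J A ∧
    (∀ Z ∈ pp G, ∃ X ∈ pp H, X - Z ∈ ⨆ j ∈ Jᶜ, P j) ∧
    ∀ X ∈ pp H, X ∈ ⨆ j ∈ (J ∪ A)ᶜ, P j → X = 0

private theorem crit_comm {X Y : Alg N} (hX : ∀ i, (X i)ᵀ = X i) (hY : ∀ i, (Y i)ᵀ = Y i)
    (h : br (br X Y) X = 0) : X * Y = Y * X := by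
  funext i
  have h1 : (X i * Y i - Y i * X i) * X i - X i * (X i * Y i - Y i * X i) = 0 := congrFun h i
  have h2 : fr (X i * Y i - Y i * X i) = 0 := by
    have e1 : (X i * Y i - Y i * X i)ᵀ = -(X i * Y i - Y i * X i) := by
      rw [Matrix.transpose_sub, Matrix.transpose_mul, Matrix.transpose_mul, hX, hY, neg_sub]
    obtain ⟨A, hA⟩ : ∃ A, A = X i * Y i - Y i * X i := ⟨_, rfl⟩
    rw [← hA] at h1 e1 ⊢
    have e2 : (A * A).trace = 0 := by
      have e3 : A * A = A * X i * Y i - A * Y i * X i := by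
        nth_rewrite 2 [hA]
        rw [mul_sub, mul_assoc, mul_assoc]
      rw [e3, Matrix.trace_sub, Matrix.trace_mul_comm (A * Y i) (X i), ← mul_assoc,
        ← Matrix.trace_sub, ← sub_mul, h1, Matrix.zero_mul, Matrix.trace_zero]
    rw [fr, e1, Matrix.neg_mul, Matrix.trace_neg, e2, neg_zero]
  exact sub_eq_zero.1 (fr_eq_zero h2)

private theorem crit_T_of (B : Bdg G) {x y : pS G} (h : x.1 * y.1 = y.1 * x.1) :
    B.S.T (B.φ x) (B.φ y) = 0 := by
  refine LinearMap.ext fun z => ?_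
  obtain ⟨w, rfl⟩ := B.φ.surjective z
  have h1 := B.T_eq x y w
  rw [br, br, h, sub_self, zero_mul, mul_zero, sub_self] at h1
  have h2 : B.φ.symm (B.S.T (B.φ x) (B.φ y) (B.φ w)) = 0 := Subtype.ext h1
  rw [LinearMap.zero_apply]
  exact (LinearEquiv.map_eq_zero_iff _).1 h2

private theorem crit_sym (hG : SelfAdj G) (x : pS G) (i : Fin n) : (x.1 i)ᵀ = x.1 i :=
  ((mem_pS hG.closed).1 x.2).1 i

private theorem crit_of_T (hG : SelfAdj G) (B : Bdg G) {x y : pS G}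
    (h : B.S.T (B.φ x) (B.φ y) = 0) : x.1 * y.1 = y.1 * x.1 := by
  refine crit_comm (crit_sym hG x) (crit_sym hG y) ?_
  rw [← B.T_eq x y x, h, LinearMap.zero_apply, map_zero]
  rfl

private theorem crit_zero (hG : SelfAdj G) (hP : Ideals G P) (B : Bdg G)
    {π : Fin m → B.E →ₗ[ℝ] B.E} (hπ : B.S.DecM π)
    (hr : ∀ j, LinearMap.range (π j) = B.dn (P j)) (s : Finset (Fin m)) (x : pS G) :
    (∀ j ∈ s, π j (B.φ x) = 0) ↔ x.1 ∈ ⨆ j ∈ sᶜ, P j := by
  constructor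
  · intro h
    have h1 : x = ∑ j, B.φ.symm (π j (B.φ x)) := by
      rw [← map_sum, hπ.sum, LinearEquiv.symm_apply_apply]
    have h2 : x.1 = ∑ j, (B.φ.symm (π j (B.φ x))).1 := by
      have h3 := congrArg (pS G).subtype h1
      rw [map_sum] at h3
      exact h3
    rw [h2]
    refine Submodule.sum_mem _ fun j _ => ?_
    by_cases hj : j ∈ s
    · rw [h j hj, map_zero]
      exact Submodule.zero_mem _
    · refine Submodule.mem_iSup_of_mem j (Submodule.mem_iSup_of_mem (Finset.mem_compl.2 hj) ?_)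
      rw [← B.mem_dn, LinearEquiv.apply_symm_apply, ← hr]
      exact LinearMap.mem_range_self _ _
  · intro h i hi
    have h1 : (⨆ j ∈ sᶜ, P j) ≤ B.up (LinearMap.ker (π i)) := by
      refine iSup_le fun j => iSup_le fun hj => fun X hX => ?_
      have hXG := Ideals.le hG hP j hX
      refine B.mem_up.2 ⟨hXG, ?_⟩
      have h2 : B.φ ⟨X, hXG⟩ ∈ LinearMap.range (π j) := by
        rw [hr]
        exact B.mem_dn.2 hX
      obtain ⟨u, hu⟩ := h2
      rw [LinearMap.mem_ker, ← hu, hπ.orth, if_neg]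
      rintro rfl
      exact Finset.mem_compl.1 hj hi
    obtain ⟨h3, h4⟩ := B.mem_up.1 (h1 h)
    exact h4

theorem crit (hG : SelfAdj G) (hK : Kconn G) (hP : Ideals G P) (hHG : H ≤ G) {a : (Alg N)ˣ}
    (ha : a ∈ G) (hH : SelfAdj (cj a H)) (A : Finset (Fin m))
    (hA : ∀ j ∈ A, ∀ X ∈ P j, ∀ Y ∈ P j, X * Y = Y * X) (hR : ∀ j ∉ A, RigP G (P j)) :
    Std G H ↔ CritP G P A (cj a H) := by
  obtain ⟨B⟩ := bridge hG hK
  obtain ⟨π, hπ, hr⟩ := dcm hG hP B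
  have hcG := cj_le' hHG ha
  rw [std_iff hG hHG ha hH]
  have hV : B.S.Sub (B.dn (pS (cj a H))) :=
    B.dn_sub hG (trp_pS hH) (Submodule.span_mono (pp_mono hcG))
  have e1 : (∃ L ≤ G, SelfAdj L ∧ Cpl G (cj a H) L) ↔
      ∃ W : Submodule ℝ B.E, B.S.Sub W ∧ LTS.Cp B.K (B.dn (pS (cj a H))) W := by
    constructor
    · rintro ⟨L, hLG, hL, hc⟩
      exact ⟨B.dn (pS L), B.dn_sub hG (trp_pS hL) (Submodule.span_mono (pp_mono hLG)),
        (B.cp_iff hG hH hcG hL hLG).2 hc⟩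
    · rintro ⟨W, hW, hc⟩
      obtain ⟨L, hLG, hL, rfl⟩ := B.exists_grp hG hW
      exact ⟨L, hLG, hL, (B.cp_iff hG hH hcG hL hLG).1 hc⟩
  have hA' : ∀ j ∈ A, LinearMap.range (π j) ≤ B.S.cen ⊤ := by
    intro j hj x hx
    refine LTS.mem_cen.2 ⟨Submodule.mem_top, fun y _ => ?_⟩
    rw [← hπ.sum y, map_sum]
    refine Finset.sum_eq_zero fun i _ => ?_
    by_cases hij : j = i
    · subst hij
      obtain ⟨X, hX⟩ := B.φ.surjective x
      obtain ⟨Y, hY⟩ := B.φ.surjective (π j y)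
      rw [← hX, ← hY]
      rw [hr, ← hX] at hx
      have h1 : B.φ Y ∈ B.dn (P j) := by
        rw [hY, ← hr]
        exact LinearMap.mem_range_self _ _
      exact crit_T_of B (hA j hj _ (B.mem_dn.1 hx) _ (B.mem_dn.1 h1))
    · obtain ⟨u, rfl⟩ := hx
      exact hπ.com j i hij _ _
  have hR' : ∀ j ∉ A, LTS.Rig B.S B.K (LinearMap.range (π j)) := by
    intro j hj
    rw [hr]
    exact rig_of hG (Ideals.le hG hP j) B (hR j hj)
  have hfix := B.fix hG hK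
  have e2 : (∃ W : Submodule ℝ B.E, B.S.Sub W ∧ LTS.Cp B.K (B.dn (pS (cj a H))) W) ↔
      ∃ J : Finset (Fin m), Disjoint J A ∧
        (∀ z, ∃ x ∈ B.dn (pS (cj a H)), ∀ j ∈ J, π j x = π j z) ∧
        ∀ x ∈ B.dn (pS (cj a H)), (∀ j ∈ J, π j x = 0) → (∀ j ∈ A, π j x = 0) → x = 0 :=
    ⟨LTS.rigid_mp hπ B.grp hfix A hR' hV, LTS.rigid_mpr hπ B.grp hfix A hA'⟩
  rw [e1, e2, CritP]
  refine exists_congr fun J => and_congr Iff.rfl (and_congr ?_ ?_)
  · constructor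
    · intro h Z hZ
      obtain ⟨x, hx, hj⟩ := h (B.φ ⟨Z, (mem_pS hG.closed).2 hZ⟩)
      obtain ⟨X, rfl⟩ := B.φ.surjective x
      refine ⟨X.1, (mem_pS hH.closed).1 (B.mem_dn.1 hx), ?_⟩
      have h1 := (crit_zero hG hP B hπ hr J (X - ⟨Z, (mem_pS hG.closed).2 hZ⟩)).1 (fun j hj' => by
        rw [map_sub, map_sub, hj j hj', sub_self])
      exact h1
    · intro h z
      obtain ⟨Z, rfl⟩ := B.φ.surjective z
      obtain ⟨X, hX, h1⟩ := h Z.1 ((mem_pS hG.closed).1 Z.2)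
      have hXG : X ∈ pS G := (mem_pS hG.closed).2 (pp_mono hcG hX)
      refine ⟨B.φ ⟨X, hXG⟩, B.mem_dn.2 ((mem_pS hH.closed).2 hX), fun j hj => ?_⟩
      have h2 := (crit_zero hG hP B hπ hr J ((⟨X, hXG⟩ : pS G) - Z)).2 h1 j hj
      rw [map_sub, map_sub] at h2
      exact sub_eq_zero.1 h2
  · constructor
    · intro h X hX hX2
      have hXG : X ∈ pS G := (mem_pS hG.closed).2 (pp_mono hcG hX)
      have h1 := (crit_zero hG hP B hπ hr (J ∪ A) (⟨X, hXG⟩ : pS G)).2 hX2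
      have h2 := h (B.φ ⟨X, hXG⟩) (B.mem_dn.2 ((mem_pS hH.closed).2 hX))
        (fun j hj => h1 j (Finset.mem_union_left _ hj))
        (fun j hj => h1 j (Finset.mem_union_right _ hj))
      have h3 := (LinearEquiv.map_eq_zero_iff _).1 h2
      exact congrArg Subtype.val h3
    · intro h x hx h1 h2
      obtain ⟨X, rfl⟩ := B.φ.surjective x
      have h3 := (crit_zero hG hP B hπ hr (J ∪ A) X).1 (fun j hj => by
        rcases Finset.mem_union.1 hj with h4 | h4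
        · exact h1 j h4
        · exact h2 j h4)
      have h4 := h X.1 ((mem_pS hH.closed).1 (B.mem_dn.1 hx)) h3
      have h5 : X = 0 := Subtype.ext h4
      rw [h5, map_zero]

/-- `Q` has real rank at most one -/
def Rk1P (Q : Submodule ℝ (Alg N)) : Prop :=
  ∀ X ∈ Q, ∀ Y ∈ Q, X * Y = Y * X → ∃ c : ℝ, X = c • Y ∨ Y = c • X

/-- `Q` has trivial centre, real rank two, and all nonzero elements which are conjugate to their
negatives are conjugate up to scalars (restricted root system of type `A₂`) -/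
structure TwoAP (G : Subgroup (Alg N)ˣ) (Q : Submodule ℝ (Alg N)) : Prop where
  cen : ∀ X ∈ Q, (∀ Y ∈ Q, X * Y = Y * X) → X = 0
  reg : ∀ X ∈ Q, ∀ Y ∈ Q, X * Y = Y * X → (∀ c : ℝ, X ≠ c • Y ∧ Y ≠ c • X) →
    ∃ Z ∈ Submodule.span ℝ {X, Y}, ∀ W ∈ Q, Z * W = W * Z → W ∈ Submodule.span ℝ {X, Y}
  inv : ∀ X ∈ Q, ∀ Y ∈ Q, X ≠ 0 → Y ≠ 0 → (∃ k ∈ G, Orth k ∧ cA k X = -X) →
    (∃ k ∈ G, Orth k ∧ cA k Y = -Y) → ∃ k ∈ G, Orth k ∧ ∃ c : ℝ, Y = c • cA k X

private theorem crit_ideal (hG : SelfAdj G) (hP : Ideals G P) (B : Bdg G) (j : Fin m) :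
    ∀ x y, ∀ z ∈ B.dn (P j), B.S.T x y z ∈ B.dn (P j) := by
  obtain ⟨π, hπ, hr⟩ := dcm hG hP B
  intro x y z hz
  rw [← hr] at hz ⊢
  obtain ⟨u, rfl⟩ := hz
  have h := hπ.two j
  have h1 : (LinearMap.id - π j : B.E →ₗ[ℝ] B.E) (π j u) = 0 := by
    rw [LinearMap.sub_apply, hπ.orth, if_pos rfl]
    exact sub_self _
  have h2 := h.hom₂ x y (π j u)
  rw [h1, map_zero] at h2
  have h3 := h.add (B.S.T x y (π j u))
  rw [h2, add_zero] at h3
  rw [← h3]
  exact LinearMap.mem_range_self _ _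

theorem rk1P (hG : SelfAdj G) (hK : Kconn G) (hP : Ideals G P) {j : Fin m} (h : Rk1P (P j)) :
    RigP G (P j) := by
  obtain ⟨B⟩ := bridge hG hK
  refine rig_to hG (Ideals.le hG hP j) B (LTS.rk1_rig B.grp (crit_ideal hG hP B j) ?_)
  intro x hx y hy hxy
  obtain ⟨X, rfl⟩ := B.φ.surjective x
  obtain ⟨Y, rfl⟩ := B.φ.surjective y
  obtain ⟨c, hc⟩ := h _ (B.mem_dn.1 hx) _ (B.mem_dn.1 hy) (crit_of_T hG B hxy)
  refine ⟨c, ?_⟩
  rcases hc with hc | hc
  · left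
    have h1 : X = c • Y := Subtype.ext hc
    rw [h1, map_smul]
  · right
    have h1 : Y = c • X := Subtype.ext hc
    rw [h1, map_smul]

private theorem crit_span (B : Bdg G) {X Y Z : pS G} :
    B.φ Z ∈ Submodule.span ℝ {B.φ X, B.φ Y} ↔ Z.1 ∈ Submodule.span ℝ {X.1, Y.1} := by
  rw [Submodule.mem_span_pair, Submodule.mem_span_pair]
  refine exists_congr fun a => exists_congr fun b => ?_
  rw [← map_smul, ← map_smul, ← map_add, B.φ.injective.eq_iff, Subtype.ext_iff]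
  exact Iff.rfl

theorem twoAP (hG : SelfAdj G) (hK : Kconn G) (hP : Ideals G P) {j : Fin m}
    (h : TwoAP G (P j)) : RigP G (P j) := by
  obtain ⟨B⟩ := bridge hG hK
  have hle := Ideals.le hG hP j
  refine rig_to hG hle B (LTS.twoA_rig B.grp (crit_ideal hG hP B j) ⟨?_, ?_, ?_⟩)
  · rw [eq_bot_iff]
    intro x hx
    obtain ⟨X, rfl⟩ := B.φ.surjective x
    obtain ⟨h1, h2⟩ := LTS.mem_cen.1 hx
    have h3 := h.cen X.1 (B.mem_dn.1 h1) (fun Y hY => by
      exact crit_of_T hG B (x := X) (y := ⟨Y, hle hY⟩) (h2 _ (B.mem_dn.2 hY)))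
    have h4 : X = 0 := Subtype.ext h3
    rw [h4, map_zero]
    exact Submodule.zero_mem _
  · intro x hx y hy hxy hc
    obtain ⟨X, rfl⟩ := B.φ.surjective x
    obtain ⟨Y, rfl⟩ := B.φ.surjective y
    obtain ⟨Z, hZ, hW⟩ := h.reg X.1 (B.mem_dn.1 hx) Y.1 (B.mem_dn.1 hy) (crit_of_T hG B hxy)
      (fun c => ⟨fun e => (hc c).1 (by
          have h1 : X = c • Y := Subtype.ext e
          rw [h1, map_smul]), fun e => (hc c).2 (by
          have h1 : Y = c • X := Subtype.ext e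
          rw [h1, map_smul])⟩)
    have hZG : Z ∈ pS G := by
      obtain ⟨p, q, rfl⟩ := Submodule.mem_span_pair.1 hZ
      exact Submodule.add_mem _ (Submodule.smul_mem _ _ X.2) (Submodule.smul_mem _ _ Y.2)
    refine ⟨B.φ ⟨Z, hZG⟩, (crit_span B (Z := ⟨Z, hZG⟩)).2 hZ, fun w hw hzw => ?_⟩
    obtain ⟨W, rfl⟩ := B.φ.surjective w
    refine (crit_span B).2 (hW W.1 (B.mem_dn.1 hw) ?_)
    exact crit_of_T hG B (x := ⟨Z, hZG⟩) (y := W) hzw
  · intro x hx y hy hx0 hy0 hux huy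
    obtain ⟨X, rfl⟩ := B.φ.surjective x
    obtain ⟨Y, rfl⟩ := B.φ.surjective y
    have key : ∀ X : pS G, (∃ u ∈ B.K, u.1 (B.φ X) = -B.φ X) → ∃ k ∈ G, Orth k ∧
        cA k X.1 = -X.1 := by
      rintro X ⟨u, hu, e⟩
      obtain ⟨k, hk, ho, h1⟩ := B.act' u hu
      refine ⟨k, hk, ho, ?_⟩
      rw [← h1 X, e, ← map_neg, LinearEquiv.symm_apply_apply]
      rfl
    have hX0 : X.1 ≠ 0 := fun e => hx0 (by
      have h1 : X = 0 := Subtype.ext e
      rw [h1, map_zero])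
    have hY0 : Y.1 ≠ 0 := fun e => hy0 (by
      have h1 : Y = 0 := Subtype.ext e
      rw [h1, map_zero])
    obtain ⟨k, hk, ho, c, hc⟩ := h.inv X.1 (B.mem_dn.1 hx) Y.1 (B.mem_dn.1 hy) hX0 hY0
      (key X hux) (key Y huy)
    obtain ⟨u, hu, h1⟩ := B.act k hk ho
    refine ⟨u, hu, c, ?_⟩
    rw [← h1 X] at hc
    have h2 : Y = c • B.φ.symm (u.1 (B.φ X)) := Subtype.ext hc
    rw [h2, map_smul, LinearEquiv.apply_symm_apply]

end Pool.Agent.MP_417c68_gt
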