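import Pool.Agent.Lib.MP_417c68_gt_P.J.Rig

/-!
# MP_417c68_gt, project P, module J/Rk: ideals of real rank one or of type `A₂` are rigid

PROOFS.
* `exists_com`: take `u ∈ Inn` with `ip (u x) y` maximal (`inn_compact`).  For all `a b`:
  `t ↦ ip (exp (t T a b) (u x)) y` is maximal at `0`, so `0 = ip (T a b (u x)) y = ip (T (u x) y a)
  b` (`ps`).
* `exists_neg`: `A` a centreless subtriple in which commuting elements are proportional, `0 ≠ x ∈
  A`.
  In `S.res A` take `u ∈ Inn` with `ip (u x) x` minimal; as above `T (u x) x = 0`, so `u x = ± x`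
  (proportional,
  isometry).  If `u x = x` then `ip (v x) x ≥ ip x x` for all `v ∈ Inn (S.res A)`, so `v x = x`
  (Cauchy-Schwarz), so `T a b x = 0` for `a, b ∈ A` (derivative), `T x b = 0` (`T_zero`),
  contradiction.
  Extend `u` to `Inn S` by `inn_ext` for the inclusion.
* `rk1_rig`: `0 ≠ x ∈ A`, `0 ≠ y ∈ B`; `exists_com`: `T (u y) x = 0`, `u y ∈ I` (`inn_sub`), so `x`
  and `u y` are
  proportional and both nonzero, `x ∈ A ∩ u B`, contradiction (`Inn ≤ K`).
* `twoA_rig`.  If `x, y ∈ A` commute and are independent: `z` from `reg`; for `0 ≠ b ∈ B` there is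
  `u` with
  `T (u b) z = 0` (`exists_com`), `u b ∈ I`, so `u b ∈ span {x, y} ≤ A`, contradiction.  So
  commuting elements of
  `A` are proportional, the same for `B`.  `A` is centreless: `nc` for `S.res I` (centreless), the
  subspaces
  `A`, `B` of `I` (an element of `Inn (S.res I)` extends to `Inn S`, `inn_ext`), `cen_res_map`.  So
  `exists_neg`
  for `0 ≠ x ∈ A`, `0 ≠ y ∈ B`, then `inv`: `y = c • u x`, contradiction.
-/

noncomputable section

namespace Pool.Agent.MP417P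

open Module

namespace LTS

variable {E : Type} [NormedAddCommGroup E] [NormedSpace ℝ E] [FiniteDimensional ℝ E]
  {S : LTS E} {K : Subgroup (GLE E)}

/-- the derivative of `t ↦ ip (exp (t T a b) z) y` at `0` -/
private theorem deriv_ip (S : LTS E) (a b z y : E) :
    HasDerivAt (fun t : ℝ => S.ip ((ex (t • S.D a b)).1 z) y) (S.ip (S.T a b z) y) 0 := by
  have h1 : HasDerivAt (fun t : ℝ => (ex (t • S.D a b)).1 z) (S.D a b z) 0 :=
    (ContinuousLinearMap.apply ℝ E z).hasFDerivAt.comp_hasDerivAt (0 : ℝ) (ex_deriv (S.D a b))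
  let L : E →L[ℝ] ℝ := LinearMap.toContinuousLinearMap (S.ip.flip y)
  exact L.hasFDerivAt.comp_hasDerivAt (0 : ℝ) h1

private theorem cont_ip (S : LTS E) (x y : E) : Continuous fun u : GLE E => S.ip (u.1 x) y := by
  let L : E →L[ℝ] ℝ := LinearMap.toContinuousLinearMap (S.ip.flip y)
  exact L.continuous.comp (continuous_apply_val x)

omit [FiniteDimensional ℝ E] in
/-- a critical point of `u ↦ ip (u x) y` commutes with `y` -/
private theorem crit (S : LTS E) {x y : E} (h : ∀ a b, S.ip (S.T a b x) y = 0) :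
    S.T x y = 0 := by
  refine S.T_zero ?_
  rw [S.ps]
  exact h _ _

private theorem crit_max (S : LTS E) {x y : E} {u : GLE E} (hu : u ∈ S.Inn)
    (h : ∀ v ∈ S.Inn, S.ip (v.1 x) y ≤ S.ip (u.1 x) y) (a b : E) :
    S.ip (S.T a b (u.1 x)) y = 0 := by
  have h1 := deriv_ip S a b (u.1 x) y
  have h2 : IsLocalMax (fun t : ℝ => S.ip ((ex (t • S.D a b)).1 (u.1 x)) y) 0 := by
    refine Filter.Eventually.of_forall fun t => ?_
    show S.ip ((ex (t • S.D a b)).1 (u.1 x)) y ≤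
      S.ip ((ex ((0 : ℝ) • S.D a b)).1 (u.1 x)) y
    rw [zero_smul, ex_zero]
    exact h (ex (t • S.D a b) * u) (S.Inn.mul_mem (S.ex_smul_mem t a b) hu)
  exact h2.hasDerivAt_eq_zero h1

theorem exists_com (S : LTS E) (x y : E) : ∃ u ∈ S.Inn, S.T (u.1 x) y = 0 := by
  obtain ⟨u, hu, hmax⟩ := S.inn_compact.exists_isMaxOn ⟨1, S.Inn.one_mem⟩
    (cont_ip S x y).continuousOn
  exact ⟨u, hu, S.crit (S.crit_max hu fun v hv => hmax hv)⟩

/-- commuting elements are proportional -/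
def Pro (S : LTS E) (I : Submodule ℝ E) : Prop :=
  ∀ x ∈ I, ∀ y ∈ I, S.T x y = 0 → ∃ c : ℝ, x = c • y ∨ y = c • x

omit [FiniteDimensional ℝ E] in
/-- proportional vectors of the same length are equal up to sign -/
private theorem pm (S : LTS E) {x y : E} (hx : x ≠ 0) (hl : S.ip y y = S.ip x x) {c : ℝ}
    (h : y = c • x) : y = x ∨ y = -x := by
  have hp := S.pos x hx
  rw [h, map_smul, map_smul, LinearMap.smul_apply, smul_eq_mul, smul_eq_mul] at hl
  have h1 : (c - 1) * (c + 1) = 0 := by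
    have h2 : (c * c - 1) * S.ip x x = 0 := by linarith
    rcases mul_eq_zero.1 h2 with h3 | h3
    · linarith
    · exact absurd h3 hp.ne'
  rcases mul_eq_zero.1 h1 with h2 | h2
  · left
    rw [h, show c = 1 by linarith, one_smul]
  · right
    rw [h, show c = -1 by linarith, neg_smul, one_smul]

theorem exists_neg {A : Submodule ℝ E} (hA : S.Sub A) (hc : S.cen A = ⊥) (hp : Pro S A) {x : E}
    (hx : x ∈ A) : ∃ u ∈ S.Inn, u.1 x = -x := by
  by_cases hx0 : x = 0
  · refine ⟨1, S.Inn.one_mem, ?_⟩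
    rw [hx0, map_zero, neg_zero]
  let R : LTS A := S.res A hA
  let x' : A := ⟨x, hx⟩
  have hx'0 : x' ≠ 0 := fun h => hx0 (congrArg Subtype.val h)
  obtain ⟨u, hu, hmax⟩ := R.inn_compact.exists_isMaxOn ⟨1, R.Inn.one_mem⟩
    (cont_ip R x' (-x')).continuousOn
  have h1 : ∀ a b, R.ip (R.T a b (u.1 x')) (-x') = 0 := R.crit_max hu fun v hv => hmax hv
  have h2 : R.T (u.1 x') x' = 0 := by
    have h3 := R.crit h1
    rw [map_neg, neg_eq_zero] at h3
    exact h3
  have h4 : S.T (u.1 x').1 x = 0 := by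
    refine S.T_zero ?_
    have h5 : ((R.T (u.1 x') x' (u.1 x') : A) : E) = 0 := by
      rw [h2]
      rfl
    have h6 : S.T (u.1 x').1 x (u.1 x').1 = 0 := h5
    rw [h6, map_zero, LinearMap.zero_apply]
  have hlen : ∀ v ∈ R.Inn, R.ip (v.1 x') (v.1 x') = R.ip x' x' := fun v hv =>
    (R.inn_aut v hv).2 x' x'
  have h7 : u.1 x' = x' ∨ u.1 x' = -x' := by
    obtain ⟨c, h8 | h8⟩ := hp (u.1 x').1 (u.1 x').2 x hx h4
    · exact pm R hx'0 (hlen u hu) (Subtype.ext h8 : u.1 x' = c • x')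
    · have hu0 : u.1 x' ≠ 0 := by
        intro h0
        have h9 := hlen u hu
        rw [h0, map_zero] at h9
        exact (R.pos x' hx'0).ne' h9.symm
      rcases pm R hu0 (hlen u hu).symm (Subtype.ext h8 : x' = c • u.1 x') with h9 | h9
      · exact Or.inl h9.symm
      · right
        exact (neg_eq_iff_eq_neg.2 h9).symm
  rcases h7 with h7 | h7
  · exfalso
    -- every inner automorphism fixes `x'`
    have h8 : ∀ v ∈ R.Inn, v.1 x' = x' := by
      intro v hv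
      have h9 : R.ip (v.1 x') (-x') ≤ R.ip (u.1 x') (-x') := hmax hv
      rw [h7, map_neg, map_neg] at h9
      have h10 : R.ip (v.1 x' - x') (v.1 x' - x') ≤ 0 := by
        rw [map_sub, map_sub, LinearMap.sub_apply, LinearMap.sub_apply, hlen v hv,
          R.symm x' (v.1 x')]
        linarith
      have h11 := R.ip_zero (le_antisymm h10 (R.ip_nonneg _))
      exact sub_eq_zero.1 h11
    have h12 : ∀ a b, R.T a b x' = 0 := by
      intro a b
      refine R.ip_zero ?_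
      have h13 := deriv_ip R a b x' (R.T a b x')
      have h14 : (fun t : ℝ => R.ip ((ex (t • R.D a b)).1 x') (R.T a b x')) =
          fun _ => R.ip x' (R.T a b x') := by
        funext t
        rw [h8 _ (R.ex_smul_mem t a b)]
      rw [h14] at h13
      exact h13.unique (hasDerivAt_const (0 : ℝ) _)
    have h15 : x ∈ S.cen A := by
      refine mem_cen.2 ⟨hx, fun b hb => S.T_zero ?_⟩
      have h16 : ((R.T x' ⟨b, hb⟩ x' : A) : E) = 0 := by
        rw [h12]
        rfl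
      have h17 : S.T x b x = 0 := h16
      rw [h17, map_zero, LinearMap.zero_apply]
    rw [hc, Submodule.mem_bot] at h15
    exact hx0 h15
  · obtain ⟨m, hm, hm1, _⟩ := inn_ext (S := S) (S' := R) (f := A.subtype)
      (fun x y z => rfl) hu
    refine ⟨m, hm, ?_⟩
    have h8 := hm1 x'
    rw [h7] at h8
    exact h8

private theorem inn_mem_ideal {I : Submodule ℝ E} (hI : ∀ x y, ∀ z ∈ I, S.T x y z ∈ I)
    {u : GLE E} (hu : u ∈ S.Inn) {x : E} (hx : x ∈ I) : u.1 x ∈ I := by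
  have h := S.inn_sub hI hu
  rw [← h]
  exact mem_im.2 ⟨x, hx, rfl⟩

theorem rk1_rig (hK : S.Grp K) {I : Submodule ℝ E} (hI : ∀ x y, ∀ z ∈ I, S.T x y z ∈ I)
    (hp : Pro S I) : Rig S K I := by
  intro A B _ _ hAI hBI _ hd
  by_contra hcon
  rw [not_or] at hcon
  obtain ⟨x, hx, hx0⟩ := Submodule.exists_mem_ne_zero_of_ne_bot hcon.1
  obtain ⟨y, hy, hy0⟩ := Submodule.exists_mem_ne_zero_of_ne_bot hcon.2
  obtain ⟨u, hu, huy⟩ := exists_com S y x
  have huk := hK.inn hu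
  have hu0 : u.1 y ≠ 0 := by
    intro h0
    have h1 := (S.inn_aut u hu).2 y y
    rw [h0, map_zero] at h1
    exact (S.pos y hy0).ne' h1.symm
  obtain ⟨c, h1 | h1⟩ := hp (u.1 y) (inn_mem_ideal hI hu (hBI hy)) x (hAI hx) huy
  · have hc : c ≠ 0 := fun h => hu0 (by rw [h1, h, zero_smul])
    refine hx0 (hd u huk x hx (c⁻¹ • y) (B.smul_mem _ hy) ?_)
    rw [map_smul, h1, smul_smul, inv_mul_cancel₀ hc, one_smul]
  · refine hx0 (hd u huk x hx (c • y) (B.smul_mem _ hy) ?_)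
    rw [map_smul]
    exact h1

/-- centreless ideals of real rank two in which all elements conjugate to their negatives are
conjugate up to scalars (restricted root system of type `A₂`) -/
structure TwoA (S : LTS E) (K : Subgroup (GLE E)) (I : Submodule ℝ E) : Prop where
  cen : S.cen I = ⊥
  reg : ∀ x ∈ I, ∀ y ∈ I, S.T x y = 0 → (∀ c : ℝ, x ≠ c • y ∧ y ≠ c • x) →
    ∃ z, z ∈ Submodule.span ℝ {x, y} ∧ ∀ w ∈ I, S.T z w = 0 → w ∈ Submodule.span ℝ {x, y}
  inv : ∀ x ∈ I, ∀ y ∈ I, x ≠ 0 → y ≠ 0 → (∃ u ∈ K, u.1 x = -x) →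
    (∃ u ∈ K, u.1 y = -y) → ∃ u ∈ K, ∃ c : ℝ, y = c • u.1 x

private theorem twoA_pro (hK : S.Grp K) {I : Submodule ℝ E}
    (hI : ∀ x y, ∀ z ∈ I, S.T x y z ∈ I) (h : TwoA S K I) {A B : Submodule ℝ E} (hAI : A ≤ I)
    (hBI : B ≤ I) (hB : B ≠ ⊥)
    (hd : ∀ k ∈ K, ∀ x ∈ A, ∀ y ∈ B, x = k.1 y → x = 0) : Pro S A := by
  intro x hx y hy hxy
  by_contra hcon
  obtain ⟨b, hb, hb0⟩ := Submodule.exists_mem_ne_zero_of_ne_bot hB
  obtain ⟨z, hz, hz'⟩ := h.reg x (hAI hx) y (hAI hy) hxy fun c =>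
    ⟨fun h1 => hcon ⟨c, Or.inl h1⟩, fun h1 => hcon ⟨c, Or.inr h1⟩⟩
  obtain ⟨u, hu, hub⟩ := exists_com S b z
  have h1 : u.1 b ∈ A := by
    have h2 := hz' (u.1 b) (inn_mem_ideal hI hu (hBI hb)) (S.T_symm hub)
    refine (Submodule.span_le.2 ?_) h2
    rintro w (rfl | rfl)
    · exact hx
    · exact hy
  have h3 := hd u (hK.inn hu) (u.1 b) h1 b hb rfl
  have h4 := (S.inn_aut u hu).2 b b
  rw [h3, map_zero] at h4
  exact (S.pos b hb0).ne' h4.symm

private theorem twoA_cen (hK : S.Grp K) {I : Submodule ℝ E} (hIs : S.Sub I)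
    (hc : S.cen I = ⊥) {A B : Submodule ℝ E} (hAI : A ≤ I) (hBI : B ≤ I)
    (hdim : finrank ℝ A + finrank ℝ B = finrank ℝ I)
    (hd : ∀ k ∈ K, ∀ x ∈ A, ∀ y ∈ B, x = k.1 y → x = 0) : S.cen A = ⊥ := by
  let R : LTS I := S.res I hIs
  have hA : finrank ℝ (A.comap I.subtype) = finrank ℝ A :=
    (Submodule.comapSubtypeEquivOfLe hAI).finrank_eq
  have hB : finrank ℝ (B.comap I.subtype) = finrank ℝ B :=
    (Submodule.comapSubtypeEquivOfLe hBI).finrank_eq
  have hcp : Cp R.Inn (A.comap I.subtype) (B.comap I.subtype) := by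
    refine ⟨fun k hk x hx y hy hxy => ?_, by rw [hA, hB, hdim]⟩
    obtain ⟨m, hm, hm1, _⟩ := inn_ext (S := S) (S' := R) (f := I.subtype)
      (fun x y z => rfl) hk
    refine Subtype.ext (hd m (hK.inn hm) x.1 hx y.1 hy ?_)
    have h1 := hm1 y
    rw [← hxy] at h1
    exact h1.symm
  have h1 := S.cen_res_map hIs (R.nc (S.cen_res hIs hc) hcp)
  rw [Submodule.map_comap_subtype, inf_eq_right.2 hAI] at h1
  exact h1

theorem twoA_rig (hK : S.Grp K) {I : Submodule ℝ E} (hI : ∀ x y, ∀ z ∈ I, S.T x y z ∈ I)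
    (h : TwoA S K I) : Rig S K I := by
  intro A B hA hB hAI hBI hdim hd
  by_contra hcon
  rw [not_or] at hcon
  have hIs : S.Sub I := fun x _ y _ z hz => hI x y z hz
  have hd' : ∀ k ∈ K, ∀ x ∈ B, ∀ y ∈ A, x = k.1 y → x = 0 := by
    intro k hk x hx y hy hxy
    have h1 : y = (k⁻¹).1 x := by
      rw [hxy]
      show y = ((k⁻¹).1 * k.1) y
      rw [← Units.val_mul, inv_mul_cancel]
      rfl
    have h2 := hd k⁻¹ (K.inv_mem hk) y hy x hx h1
    rw [hxy, h2, map_zero]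
  have hAc := twoA_cen hK hIs h.cen hAI hBI hdim hd
  have hBc := twoA_cen hK hIs h.cen hBI hAI (by rw [add_comm]; exact hdim) hd'
  have hAp := twoA_pro hK hI h hAI hBI hcon.2 hd
  have hBp := twoA_pro hK hI h hBI hAI hcon.1 hd'
  obtain ⟨x, hx, hx0⟩ := Submodule.exists_mem_ne_zero_of_ne_bot hcon.1
  obtain ⟨y, hy, hy0⟩ := Submodule.exists_mem_ne_zero_of_ne_bot hcon.2
  obtain ⟨u₁, hu₁, h₁⟩ := exists_neg hA hAc hAp hx
  obtain ⟨u₂, hu₂, h₂⟩ := exists_neg hB hBc hBp hy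
  obtain ⟨u, hu, c, hc⟩ := h.inv x (hAI hx) y (hBI hy) hx0 hy0 ⟨u₁, hK.inn hu₁, h₁⟩
    ⟨u₂, hK.inn hu₂, h₂⟩
  have hc0 : c ≠ 0 := fun h1 => hy0 (by rw [hc, h1, zero_smul])
  refine hy0 (hd' u hu y hy (c • x) (A.smul_mem _ hx) ?_)
  rw [map_smul]
  exact hc

end LTS

end Pool.Agent.MP417P
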