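import Pool.Agent.Lib.MP_417c68_gt_P.J.Tr
import Pool.Agent.Lib.MP_417c68_gt_P.J.Rk

/-!
# MP_417c68_gt, project P, module J/Dc: decompositions of `𝔭(G)` into commuting Lie triples

PROOF of `dcm`.  The subspaces `B.dn (P j)` of `B.E` are independent with supremum `⊤`; `π j` is the
projection onto `B.dn (P j)` along the sum of the others (`DirectSum.IsInternal`, or
`Submodule.IsCompl.projection` for `B.dn (P j)` and `⨆ i ≠ j, B.dn (P i)`).
* `com`: `T x y = 0` for `x ∈ P i`, `y ∈ P j`, `i ≠ j` (`T_eq`).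
* `hom`: `T x y z = ∑ j, T (π j x) (π j y) (π j z)` (mixed terms vanish by `com_T`) and the `j`-th
  term is
  in `P j` (`tri`).
-/

noncomputable section

namespace Pool.Agent.MP_417c68_gt

open Matrix NormedSpace Pool.Agent.MP417P Module

variable {n : ℕ} {N : Fin n → ℕ} {G H L : Subgroup (Alg N)ˣ} {m : ℕ}

/-- `𝔭(G)` is the direct sum of the pairwise commuting Lie triples `P j` -/
structure Ideals (G : Subgroup (Alg N)ˣ) (P : Fin m → Submodule ℝ (Alg N)) : Prop where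
  sup : ∀ X, X ∈ pp G ↔ X ∈ ⨆ j, P j
  ind : iSupIndep P
  com : ∀ i j, i ≠ j → ∀ X ∈ P i, ∀ Y ∈ P j, X * Y = Y * X
  tri : ∀ j, ∀ X ∈ P j, ∀ Y ∈ P j, ∀ Z ∈ P j, br (br X Y) Z ∈ P j

/-- `𝔭(L)` is the direct sum of its intersections with the `P j`: the components in the `P j` of the
elements of `𝔭(L)` are in `𝔭(L)` -/
def SplP (P : Fin m → Submodule ℝ (Alg N)) (L : Subgroup (Alg N)ˣ) : Prop :=
  ∀ Y : Fin m → Alg N, (∀ j, Y j ∈ P j) → ∑ j, Y j ∈ pp L → ∀ j, Y j ∈ pp L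

/-- `Q = (Q ∩ 𝔭(H)) ⊕ Ad(k) (Q ∩ 𝔭(L))` for all `k` in the maximal compact subgroup of `G` -/
def CplP (G : Subgroup (Alg N)ˣ) (Q : Submodule ℝ (Alg N)) (H L : Subgroup (Alg N)ˣ) : Prop :=
  ∀ k ∈ G, Orth k → (∀ x ∈ Q, x ∈ pp H → ∀ y ∈ Q, y ∈ pp L → x = cA k y → x = 0) ∧
    ∀ z ∈ Q, ∃ x ∈ Q, x ∈ pp H ∧ ∃ y ∈ Q, y ∈ pp L ∧ z = x + cA k y

/-- `Q` is rigid: it is not the sum of two nonzero complementary Lie triples -/
def RigP (G : Subgroup (Alg N)ˣ) (Q : Submodule ℝ (Alg N)) : Prop :=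
  ∀ A B : Submodule ℝ (Alg N), Trp A → Trp B → A ≤ Q → B ≤ Q →
    finrank ℝ A + finrank ℝ B = finrank ℝ Q →
    (∀ k ∈ G, Orth k → ∀ x ∈ A, ∀ y ∈ B, x = cA k y → x = 0) → A = ⊥ ∨ B = ⊥

private theorem dc_br {A C : Fin m → Alg N} (h : ∀ i k, i ≠ k → A i * C k = C k * A i) :
    br (∑ i, A i) (∑ k, C k) = ∑ i, br (A i) (C i) := by
  unfold br
  rw [Finset.sum_mul_sum, Finset.sum_mul_sum]
  rw [Finset.sum_comm (f := fun i j => C i * A j), ← Finset.sum_sub_distrib]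
  refine Finset.sum_congr rfl fun i _ => ?_
  rw [← Finset.sum_sub_distrib]
  refine Finset.sum_eq_single i (fun k _ hk => ?_) fun hi => absurd (Finset.mem_univ i) hi
  rw [h i k (Ne.symm hk), sub_self]

private theorem dc_com {A B C : Alg N} (h1 : A * C = C * A) (h2 : B * C = C * B) :
    br A B * C = C * br A B := by
  unfold br
  rw [sub_mul, mul_sub, mul_assoc, h2, ← mul_assoc, h1, mul_assoc C A B, mul_assoc B A C, h1,
    ← mul_assoc B C A, h2, mul_assoc C B A]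

private theorem dc_uniq {P : Fin m → Submodule ℝ (Alg N)} (hP : Ideals G P)
    {Y Y' : Fin m → Alg N} (h1 : ∀ j, Y j ∈ P j) (h2 : ∀ j, Y' j ∈ P j)
    (h : ∑ j, Y j = ∑ j, Y' j) (j : Fin m) : Y j = Y' j :=
  (iSupIndep_iff_finsetSum_eq_imp_eq P).1 hP.ind Finset.univ Y Y' (fun i _ => ⟨h1 i, h2 i⟩) h j
    (Finset.mem_univ j)

private theorem dc_le (hG : SelfAdj G) {P : Fin m → Submodule ℝ (Alg N)} (hP : Ideals G P)
    (j : Fin m) : P j ≤ pS G := by
  intro X hX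
  exact (mem_pS hG.closed).2 ((hP.sup X).2 (Submodule.mem_iSup_of_mem j hX))

private theorem dc_ex (hG : SelfAdj G) {P : Fin m → Submodule ℝ (Alg N)} (hP : Ideals G P)
    {X : Alg N} (hX : X ∈ pS G) : ∃ Y : Fin m → Alg N, (∀ j, Y j ∈ P j) ∧ ∑ j, Y j = X := by
  have h1 := (hP.sup X).1 ((mem_pS hG.closed).1 hX)
  obtain ⟨f, hf, hs⟩ := (Submodule.mem_iSup_iff_exists_finsupp P X).1 h1
  refine ⟨fun j => f j, hf, ?_⟩
  rw [← hs, Finsupp.sum_fintype _ _ fun _ => rfl]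

private theorem dc_zero (B : Bdg G) {x : B.E} (h : ((B.φ.symm x : pS G) : Alg N) = 0) :
    x = 0 := by
  have h1 : B.φ.symm x = 0 := Subtype.ext h
  rw [← B.φ.apply_symm_apply x, h1, map_zero]

theorem dcm (hG : SelfAdj G) {P : Fin m → Submodule ℝ (Alg N)} (hP : Ideals G P) (B : Bdg G) :
    ∃ π : Fin m → B.E →ₗ[ℝ] B.E, B.S.DecM π ∧ ∀ j, LinearMap.range (π j) = B.dn (P j) := by
  have hex : ∀ x : B.E, ∃ Y : Fin m → Alg N, (∀ j, Y j ∈ P j) ∧
      ∑ j, Y j = ((B.φ.symm x : pS G) : Alg N) := fun x => dc_ex hG hP (B.φ.symm x).2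
  choose Y hY1 hY2 using hex
  have hadd : ∀ x y j, Y (x + y) j = Y x j + Y y j := by
    intro x y j
    refine dc_uniq hP (Y' := fun j => Y x j + Y y j) (hY1 _)
      (fun j => (P j).add_mem (hY1 x j) (hY1 y j)) ?_ j
    rw [hY2, Finset.sum_add_distrib, hY2, hY2, map_add]
    rfl
  have hsmul : ∀ (c : ℝ) x j, Y (c • x) j = c • Y x j := by
    intro c x j
    refine dc_uniq hP (Y' := fun j => c • Y x j) (hY1 _)
      (fun j => (P j).smul_mem c (hY1 x j)) ?_ j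
    rw [hY2, ← Finset.smul_sum, hY2, map_smul]
    rfl
  have hsing : ∀ (x : B.E) (j : Fin m), ((B.φ.symm x : pS G) : Alg N) ∈ P j →
      ∀ i, Y x i = if i = j then ((B.φ.symm x : pS G) : Alg N) else 0 := by
    intro x j hx i
    refine dc_uniq hP (Y' := fun i => if i = j then ((B.φ.symm x : pS G) : Alg N) else 0)
      (hY1 _) (fun i => ?_) ?_ i
    · by_cases hij : i = j
      · simp only [if_pos hij]
        rw [hij]
        exact hx
      · simp only [if_neg hij]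
        exact (P i).zero_mem
    · rw [hY2, Finset.sum_ite_eq' Finset.univ j, if_pos (Finset.mem_univ j)]
  have hbr : ∀ x y z j, Y (B.S.T x y z) j = br (br (Y x j) (Y y j)) (Y z j) := by
    intro x y z j
    refine dc_uniq hP (Y' := fun j => br (br (Y x j) (Y y j)) (Y z j)) (hY1 _)
      (fun j => hP.tri j _ (hY1 x j) _ (hY1 y j) _ (hY1 z j)) ?_ j
    have h1 : br (∑ j, Y x j) (∑ j, Y y j) = ∑ j, br (Y x j) (Y y j) :=
      dc_br fun i k hik => hP.com i k hik _ (hY1 x i) _ (hY1 y k)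
    have h2 : br (∑ j, br (Y x j) (Y y j)) (∑ j, Y z j) =
        ∑ j, br (br (Y x j) (Y y j)) (Y z j) :=
      dc_br fun i k hik => dc_com (hP.com i k hik _ (hY1 x i) _ (hY1 z k))
        (hP.com i k hik _ (hY1 y i) _ (hY1 z k))
    have h3 := B.T_eq (B.φ.symm x) (B.φ.symm y) (B.φ.symm z)
    rw [B.φ.apply_symm_apply, B.φ.apply_symm_apply, B.φ.apply_symm_apply] at h3
    rw [hY2, h3, ← h2, ← h1, hY2, hY2, hY2]
  let π : Fin m → B.E →ₗ[ℝ] B.E := fun j =>
    { toFun := fun x => B.φ ⟨Y x j, dc_le hG hP j (hY1 x j)⟩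
      map_add' := fun x y => by
        rw [← map_add]
        exact congrArg B.φ (Subtype.ext (hadd x y j))
      map_smul' := fun c x => by
        rw [RingHom.id_apply, ← map_smul]
        exact congrArg B.φ (Subtype.ext (hsmul c x j)) }
  have hπ : ∀ j x, ((B.φ.symm (π j x) : pS G) : Alg N) = Y x j := by
    intro j x
    show ((B.φ.symm (B.φ ⟨Y x j, dc_le hG hP j (hY1 x j)⟩) : pS G) : Alg N) = Y x j
    rw [B.φ.symm_apply_apply]
  have heq : ∀ x y : B.E, ((B.φ.symm x : pS G) : Alg N) = ((B.φ.symm y : pS G) : Alg N) →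
      x = y := fun x y h => B.φ.symm.injective (Subtype.ext h)
  refine ⟨π, ⟨?_, ?_, ?_, ?_⟩, ?_⟩
  · intro x
    apply heq
    rw [map_sum, Submodule.coe_sum, ← hY2 x]
    exact Finset.sum_congr rfl fun j _ => hπ j x
  · intro i j x
    apply heq
    have h1 : ((B.φ.symm (π j x) : pS G) : Alg N) ∈ P j := by
      rw [hπ]
      exact hY1 x j
    rw [hπ, hsing _ j h1]
    by_cases hij : i = j
    · rw [if_pos hij, if_pos hij]
    · rw [if_neg hij, if_neg hij, map_zero]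
      rfl
  · intro i j hij x y
    refine LinearMap.ext fun z => dc_zero B ?_
    have h3 := B.T_eq (B.φ.symm (π i x)) (B.φ.symm (π j y)) (B.φ.symm z)
    rw [B.φ.apply_symm_apply, B.φ.apply_symm_apply, B.φ.apply_symm_apply] at h3
    rw [h3, hπ, hπ]
    have h4 : br (Y x i) (Y y j) = 0 := by
      unfold br
      rw [hP.com i j hij _ (hY1 x i) _ (hY1 y j), sub_self]
    rw [h4]
    unfold br
    rw [zero_mul, mul_zero, sub_zero]
  · intro j x y z
    apply heq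
    have h3 := B.T_eq (B.φ.symm (π j x)) (B.φ.symm (π j y)) (B.φ.symm (π j z))
    rw [B.φ.apply_symm_apply, B.φ.apply_symm_apply, B.φ.apply_symm_apply] at h3
    rw [hπ, hbr, h3, hπ, hπ, hπ]
  · intro j
    ext x
    have hx : x ∈ B.dn (P j) ↔ ((B.φ.symm x : pS G) : Alg N) ∈ P j := by
      have h1 := B.mem_dn (V := P j) (x := B.φ.symm x)
      rw [B.φ.apply_symm_apply] at h1
      exact h1
    rw [hx]
    constructor
    · rintro ⟨y, rfl⟩
      rw [hπ]
      exact hY1 y j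
    · intro h
      refine ⟨x, heq _ _ ?_⟩
      rw [hπ, hsing x j h j, if_pos rfl]

theorem Ideals.le (hG : SelfAdj G) {P : Fin m → Submodule ℝ (Alg N)} (hP : Ideals G P)
    (j : Fin m) : P j ≤ pS G :=
  dc_le hG hP j

private theorem dc_mem_dn (B : Bdg G) {V : Submodule ℝ (Alg N)} {x : B.E} :
    x ∈ B.dn V ↔ ((B.φ.symm x : pS G) : Alg N) ∈ V := by
  have h1 := B.mem_dn (V := V) (x := B.φ.symm x)
  rw [B.φ.apply_symm_apply] at h1
  exact h1

theorem spl_iff (hG : SelfAdj G) {P : Fin m → Submodule ℝ (Alg N)} (hP : Ideals G P) (B : Bdg G)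
    {π : Fin m → B.E →ₗ[ℝ] B.E} (hπ : B.S.DecM π)
    (hr : ∀ j, LinearMap.range (π j) = B.dn (P j)) (hL : SelfAdj L) (hLG : L ≤ G) :
    LTS.Spl π (B.dn (pS L)) ↔ SplP P L := by
  constructor
  · intro h Y hY hs j
    have hle := dc_le hG hP
    set a : Fin m → pS G := fun j => ⟨Y j, hle j (hY j)⟩ with ha
    have h1 : ((∑ j, a j : pS G) : Alg N) = ∑ j, Y j := by
      rw [Submodule.coe_sum]
    have h2 : B.φ (∑ j, a j) ∈ B.dn (pS L) := by
      rw [B.mem_dn, h1]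
      exact (mem_pS hL.closed).2 hs
    have h3 : π j (B.φ (∑ j, a j)) = B.φ (a j) := by
      rw [map_sum, map_sum, Finset.sum_eq_single j]
      · have h4 : B.φ (a j) ∈ LinearMap.range (π j) := by
          rw [hr, B.mem_dn]
          exact hY j
        obtain ⟨y, hy⟩ := h4
        rw [← hy, hπ.orth, if_pos rfl]
      · intro i _ hij
        have h4 : B.φ (a i) ∈ LinearMap.range (π i) := by
          rw [hr, B.mem_dn]
          exact hY i
        obtain ⟨y, hy⟩ := h4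
        rw [← hy, hπ.orth, if_neg (Ne.symm hij)]
      · intro hj
        exact absurd (Finset.mem_univ j) hj
    have h5 : B.φ (a j) ∈ B.dn (pS L) := by
      rw [← h3]
      exact h j ⟨_, h2, rfl⟩
    rw [B.mem_dn] at h5
    exact (mem_pS hL.closed).1 h5
  · rintro h j _ ⟨x, hx, rfl⟩
    replace hx := (dc_mem_dn B).1 hx
    rw [dc_mem_dn]
    refine (mem_pS hL.closed).2 (h (fun j => ((B.φ.symm (π j x) : pS G) : Alg N)) (fun j => ?_)
      ?_ j)
    · rw [← dc_mem_dn, ← hr]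
      exact ⟨x, rfl⟩
    · have h1 : ∑ j, ((B.φ.symm (π j x) : pS G) : Alg N) = ((B.φ.symm x : pS G) : Alg N) := by
        rw [← Submodule.coe_sum, ← map_sum, hπ.sum]
      rw [h1]
      exact (mem_pS hL.closed).1 hx

private theorem dc_dn_mono (B : Bdg G) {V W : Submodule ℝ (Alg N)} (h : V ≤ W) :
    B.dn V ≤ B.dn W := by
  intro x hx
  rw [dc_mem_dn] at hx ⊢
  exact h hx

private theorem dc_up_mono (B : Bdg G) {V W : Submodule ℝ B.E} (h : V ≤ W) :
    B.up V ≤ B.up W := by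
  intro x hx
  rw [B.mem_up] at hx ⊢
  obtain ⟨h1, h2⟩ := hx
  exact ⟨h1, h h2⟩

private theorem dc_dn_bot (B : Bdg G) : B.dn ⊥ = ⊥ := by
  rw [eq_bot_iff]
  intro x hx
  rw [dc_mem_dn, Submodule.mem_bot] at hx
  exact (Submodule.mem_bot ℝ).2 (dc_zero B hx)

private theorem dc_up_bot (B : Bdg G) : B.up ⊥ = ⊥ := by
  unfold Bdg.up
  rw [Submodule.map_bot, Submodule.map_bot]

theorem rig_of (hG : SelfAdj G) {Q : Submodule ℝ (Alg N)} (hQ : Q ≤ pS G) (B : Bdg G)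
    (h : RigP G Q) : LTS.Rig B.S B.K (B.dn Q) := by
  intro A C hA hC hAQ hCQ hd hdis
  have hAQ' : B.up A ≤ Q := (dc_up_mono B hAQ).trans (B.up_dn hQ).le
  have hCQ' : B.up C ≤ Q := (dc_up_mono B hCQ).trans (B.up_dn hQ).le
  have hf : finrank ℝ (B.dn Q) = finrank ℝ Q := by
    rw [← B.finrank_up (B.dn Q), B.up_dn hQ]
  have h1 := (B.disj_iff (B.up_le A) (B.up_le C)).1 (by rw [B.dn_up, B.dn_up]; exact hdis)
  rcases h (B.up A) (B.up C) (B.up_trp hG hA) (B.up_trp hG hC) hAQ' hCQ'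
    (by rw [B.finrank_up, B.finrank_up, hd, hf]) h1 with h2 | h2
  · left
    rw [← B.dn_up A, h2, dc_dn_bot]
  · right
    rw [← B.dn_up C, h2, dc_dn_bot]

theorem rig_to (hG : SelfAdj G) {Q : Submodule ℝ (Alg N)} (hQ : Q ≤ pS G) (B : Bdg G)
    (h : LTS.Rig B.S B.K (B.dn Q)) : RigP G Q := by
  intro A C hA hC hAQ hCQ hd hdis
  have hf : ∀ V : Submodule ℝ (Alg N), V ≤ pS G → finrank ℝ (B.dn V) = finrank ℝ V := by
    intro V hV
    rw [← B.finrank_up (B.dn V), B.up_dn hV]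
  have hAG := hAQ.trans hQ
  have hCG := hCQ.trans hQ
  rcases h (B.dn A) (B.dn C) (B.dn_sub hG hA hAG) (B.dn_sub hG hC hCG) (dc_dn_mono B hAQ)
    (dc_dn_mono B hCQ) (by rw [hf A hAG, hf C hCG, hf Q hQ, hd])
    ((B.disj_iff hAG hCG).2 hdis) with h2 | h2
  · left
    rw [← B.up_dn hAG, h2, dc_up_bot]
  · right
    rw [← B.up_dn hCG, h2, dc_up_bot]

end Pool.Agent.MP_417c68_gt
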