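import Pool.Agent.Lib.MP_417c68_gt_P.J.Dc
import Pool.Agent.Lib.MP_417c68_gt_D.KY

/-!
# MP_417c68_gt, project P, module J/Main: Theorem P

PROOF of `thmP`.  (⇐): `std_iff` with `ky` (or directly the definition of `Std`, conjugating by `a`:
`properAct_cj`, `cocompact_cj`).  (⇒): `std_iff` gives `L₁ ≤ G` self-adjoint with
`Cpl G (cj a H) L₁`.  Take `B` from `bridge`, `π` from `dcm`.  `V = B.dn (pS (cj a H))`,
`W = B.dn (pS L₁)`: `Cp B.K V W` (`Bdg.cp_iff`).  `LTS.final` for `(V, W)`: `W'`, and for `(W',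
  V)`: `V'` with
`Cp B.K W' V'`.  `Bdg.exists_grp`: `L`, `H'` with `B.dn (pS L) = W'`, `B.dn (pS H') = V'`.  `SplP`
  by `spl_iff`,
`Cpl` by `Bdg.cp_iff`; `ky` gives proper and cocompact (for `H` use `properAct_cj`, `cocompact_cj`
  with
`cj 1 L = L` as in the proof of `std_iff`).  `CplP`: `cplP_of`.
* `cplP_of`: `disj` is clear.  For `z ∈ P j`: `z = x + cA k y` with `x ∈ pp H'`, `y ∈ pp L`
  (`Cpl`); take the
  components in `P j` (`SplP`; `cA k` maps every `P i` to itself, `Pinv`).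
* `Pinv`: `LTS.kinv` and `Bdg.act`.
-/

noncomputable section

namespace Pool.Agent.MP_417c68_gt

open Matrix NormedSpace Pool.Agent.MP417P Module

variable {n : ℕ} {N : Fin n → ℕ} {G H L H' : Subgroup (Alg N)ˣ} {m : ℕ}
  {P : Fin m → Submodule ℝ (Alg N)}

theorem Pinv (hG : SelfAdj G) (hK : Kconn G) (hP : Ideals G P) {k : (Alg N)ˣ} (hk : k ∈ G)
    (ho : Orth k) (j : Fin m) {X : Alg N} (hX : X ∈ P j) : cA k X ∈ P j := by
  obtain ⟨B⟩ := bridge hG hK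
  obtain ⟨π, hπ, hr⟩ := dcm hG hP B
  obtain ⟨u, hu, hact⟩ := B.act k hk ho
  have hx : B.φ ⟨X, hP.le hG j hX⟩ ∈ LinearMap.range (π j) := by
    rw [hr]
    exact B.mem_dn.2 hX
  obtain ⟨w, hw⟩ := hx
  have h1 : π j (B.φ ⟨X, hP.le hG j hX⟩) = B.φ ⟨X, hP.le hG j hX⟩ := by
    rw [← hw, hπ.orth, if_pos rfl]
  have h2 : u.1 (B.φ ⟨X, hP.le hG j hX⟩) ∈ LinearMap.range (π j) := by
    refine ⟨u.1 (B.φ ⟨X, hP.le hG j hX⟩), ?_⟩
    rw [LTS.kinv hπ B.grp (B.fix hG hK) hu, h1]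
  rw [hr, ← B.φ.apply_symm_apply (u.1 (B.φ ⟨X, hP.le hG j hX⟩)), B.mem_dn, hact] at h2
  exact h2

private theorem main_pp_mono {A A' : Subgroup (Alg N)ˣ} (h : A ≤ A') {X : Alg N}
    (hX : X ∈ pp A) : X ∈ pp A' := ⟨hX.1, fun t => h (hX.2 t)⟩

private theorem main_pS_mono {A A' : Subgroup (Alg N)ˣ} (h : A ≤ A') : pS A ≤ pS A' :=
  Submodule.span_mono fun _ hX => main_pp_mono h hX

private theorem main_split (hP : Ideals G P) {A : Subgroup (Alg N)ˣ} (hA : A ≤ G)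
    (h1 : SplP P A) {X : Alg N} (hX : X ∈ pp A) :
    ∃ Y : Fin m → Alg N, (∀ j, Y j ∈ P j ∧ Y j ∈ pp A) ∧ ∑ j, Y j = X := by
  have h2 : X ∈ ⨆ j ∈ Finset.univ, P j := by
    have h3 := (hP.sup X).1 (main_pp_mono hA hX)
    simpa using h3
  obtain ⟨Y, hY⟩ := (Submodule.mem_iSup_finset_iff_exists_sum P X).1 h2
  refine ⟨fun j => (Y j : Alg N), fun j => ⟨(Y j).2, ?_⟩, hY⟩
  exact h1 (fun j => (Y j : Alg N)) (fun j => (Y j).2) (by rw [hY]; exact hX) j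

theorem cplP_of (hG : SelfAdj G) (hK : Kconn G) (hP : Ideals G P) (hH : SelfAdj H')
    (hL : SelfAdj L) (hHG : H' ≤ G) (hLG : L ≤ G) (h1 : SplP P H') (h2 : SplP P L)
    (h : Cpl G H' L) (j : Fin m) : CplP G (P j) H' L := by
  intro k hk ho
  refine ⟨fun x _ hx y _ hy e => (h k hk ho).1 x hx y hy e, fun z hz => ?_⟩
  have hzG : z ∈ pp G := (mem_pS hG.closed).1 (hP.le hG j hz)
  obtain ⟨x, hx, y, hy, e⟩ := (h k hk ho).2 z hzG
  obtain ⟨X, hX, rfl⟩ := main_split hP hHG h1 hx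
  obtain ⟨Y, hY, rfl⟩ := main_split hP hLG h2 hy
  refine ⟨X j, (hX j).1, (hX j).2, Y j, (hY j).1, (hY j).2, ?_⟩
  have hc : cA k (∑ i, Y i) = ∑ i, cA k (Y i) := map_sum (cL k) Y Finset.univ
  rw [hc, ← Finset.sum_add_distrib] at e
  have hW : ∀ i, X i + cA k (Y i) ∈ P i := fun i =>
    (P i).add_mem (hX i).1 (Pinv hG hK hP hk ho i (hY i).1)
  rw [← Finset.add_sum_erase _ _ (Finset.mem_univ j)] at e
  have h3 : z - (X j + cA k (Y j)) ∈ P j := (P j).sub_mem hz (hW j)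
  have h4 : z - (X j + cA k (Y j)) ∈ ⨆ i, ⨆ (_ : i ≠ j), P i := by
    have h5 : z - (X j + cA k (Y j)) = ∑ i ∈ Finset.univ.erase j, (X i + cA k (Y i)) := by
      rw [e, add_sub_cancel_left]
    rw [h5]
    refine Submodule.sum_mem _ fun i hi => ?_
    exact Submodule.mem_iSup_of_mem i (Submodule.mem_iSup_of_mem (Finset.ne_of_mem_erase hi) (hW i))
  have h6 := (Submodule.disjoint_def.1 (hP.ind j)) _ h3 h4
  rwa [sub_eq_zero] at h6

/-- Theorem P -/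
theorem thmP (hG : SelfAdj G) (hK : Kconn G) (hP : Ideals G P) (hHG : H ≤ G) {a : (Alg N)ˣ}
    (ha : a ∈ G) (hH : SelfAdj (cj a H)) :
    Std G H ↔ ∃ L H' : Subgroup (Alg N)ˣ, L ≤ G ∧ H' ≤ G ∧ SelfAdj L ∧ SelfAdj H' ∧
      SplP P L ∧ SplP P H' ∧ (ProperAct G H L ∧ Cocompact G H L) ∧
      (ProperAct G H' L ∧ Cocompact G H' L) ∧ ∀ j, CplP G (P j) H' L := by
  constructor
  · intro h
    obtain ⟨L₁, hL₁G, hL₁, hc⟩ := (std_iff hG hHG ha hH).1 h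
    have haG := cj_le' hHG ha
    obtain ⟨B⟩ := bridge hG hK
    obtain ⟨π, hπ, hr⟩ := dcm hG hP B
    have hV := B.dn_sub hG (trp_pS hH) (main_pS_mono haG)
    have hW := B.dn_sub hG (trp_pS hL₁) (main_pS_mono hL₁G)
    have hcp := (B.cp_iff hG hH haG hL₁ hL₁G).2 hc
    obtain ⟨W', hW', hsW, hcW⟩ := LTS.final hπ B.grp (B.fix hG hK) hV hW hcp
    obtain ⟨V', hV', hsV, hcV⟩ := LTS.final hπ B.grp (B.fix hG hK) hW' hV hcW.symm
    obtain ⟨L, hLG, hL, rfl⟩ := B.exists_grp hG hW'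
    obtain ⟨H', hH'G, hH', rfl⟩ := B.exists_grp hG hV'
    have s1 := (spl_iff hG hP B hπ hr hL hLG).1 hsW
    have s2 := (spl_iff hG hP B hπ hr hH' hH'G).1 hsV
    have c1 := (B.cp_iff hG hH haG hL hLG).1 hcW
    have c2 := (B.cp_iff hG hH' hH'G hL hLG).1 hcV.symm
    obtain ⟨hp, hq⟩ := (ky hG hH hL haG hLG).2 c1
    refine ⟨L, H', hLG, hH'G, hL, hH', s1, s2, ⟨?_, ?_⟩, (ky hG hH' hL hH'G hLG).2 c2,
      cplP_of hG hK hP hH' hL hH'G hLG s2 s1 c2⟩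
    · have h1 : ProperAct G (cj a H) (cj 1 L) := by rwa [cj_one]
      exact (properAct_cj ha G.one_mem).1 h1
    · have h1 : Cocompact G (cj a H) (cj 1 L) := by rwa [cj_one]
      exact (cocompact_cj ha G.one_mem).1 h1
  · rintro ⟨L, H', hLG, -, hL, -, -, -, ⟨hp, hq⟩, -, -⟩
    exact ⟨L, ⟨hLG, 1, G.one_mem, by rwa [cj_one]⟩, hp, hq⟩

end Pool.Agent.MP_417c68_gt
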