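import Pool.Agent.Lib.MP_417c68_gt_P.G.Final
import Pool.Agent.Lib.MP_417c68_gt_P.G.Kinv

/-!
# MP_417c68_gt, project P, module J/Rig: rigid ideals, the criterion

`Rig S K I`: the ideal `I` is not the sum of two nonzero complementary subtriples.

PROOF of `rigid_iff`.
(⇒) `final` for `(V, W)` gives `W'` split, `final` for `(W', V)` (`Cp.symm`) gives `V'` split with
`Cp K W' V'`.  `V'_j = V'.map (π j) ≤ V'`, `W'_j = W'.map (π j) ≤ W'` are subtriples of `range (π
  j)`;
`k W'_j` and `V'_j` meet in `0` for `k ∈ K`; `dim V'_j + dim W'_j ≤ dim range (π j)` (`k = 1`), the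
  sum over `j` of
the left sides is `dim V' + dim W' = dim E`, the sum of the right sides is `dim E`, so equality
  holds for
all `j`.  So `V'_j = ⊥` or `W'_j = ⊥` for `j ∉ A`.  `J = {j ∉ A : W'_j = ⊥}`; for `j ∉ J ∪ A`:
  `V'_j = ⊥`, so
`W'_j = range (π j)`.  Onto: `z = x + w` (`V ⊕ W' = E`: `Cp` for `k = 1` and dimensions), `π j w =
  0` for `j ∈ J`.
Injective: `x = ∑_{j ∉ J ∪ A} π j x ∈ W'`, so `x ∈ V ∩ W' = 0`.
(⇐) `F = {x : π j x = 0 for j ∈ J ∪ A}`, `C = {x : π j x = 0 for j ∉ A}`, `C ≤ cen ⊤`; `Y` a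
  complement of
`C ⊓ (V ⊔ F)` in `C`; `W = F ⊔ Y` is a subtriple.  `disj`: `x = k (f + y)`, `k f = f' ∈ F`
  (`kinv`), `k y = y` (`hfix`):
`y = x - f' ∈ C ⊓ (V ⊔ F)`, so `y = 0`, `x = f' ∈ V ∩ F`, `x = 0`.  `dim`: `V ⊓ W = ⊥` (the case `k
  = 1`) and
`V ⊔ W = ⊤`: for `z` take `x ∈ V` with `π j x = π j z` for `j ∈ J`; `z - x ∈ F ⊔ C`, `C ≤ V ⊔ F ⊔
  Y`.
-/

noncomputable section

namespace Pool.Agent.MP417P

open Module

namespace LTS

variable {E : Type} [NormedAddCommGroup E] [NormedSpace ℝ E] [FiniteDimensional ℝ E]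
  {S : LTS E} {K : Subgroup (GLE E)} {V : Submodule ℝ E} {m : ℕ} {π : Fin m → E →ₗ[ℝ] E}

/-- rigid ideals -/
def Rig (S : LTS E) (K : Subgroup (GLE E)) (I : Submodule ℝ E) : Prop :=
  ∀ A B : Submodule ℝ E, S.Sub A → S.Sub B → A ≤ I → B ≤ I →
    finrank ℝ A + finrank ℝ B = finrank ℝ I →
    (∀ k ∈ K, ∀ x ∈ A, ∀ y ∈ B, x = k.1 y → x = 0) → A = ⊥ ∨ B = ⊥

/-- the dimension of a split subspace -/
private theorem rig_dim (hπ : S.DecM π) {U : Submodule ℝ E} (hU : Spl π U) :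
    ∑ j, finrank ℝ (U.map (π j)) = finrank ℝ U := by
  let f : U →ₗ[ℝ] ((j : Fin m) → U.map (π j)) := LinearMap.pi fun j =>
    (π j).restrict (p := U) (q := U.map (π j)) fun x hx => Submodule.mem_map_of_mem hx
  have hf : ∀ (x : U) (j : Fin m), ((f x j : U.map (π j)) : E) = π j x.1 := fun _ _ => rfl
  have hbij : Function.Bijective f := by
    constructor
    · refine (injective_iff_map_eq_zero f).2 fun x hx => Subtype.ext ?_
      have h1 := hπ.sum x.1
      rw [← h1]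
      exact Finset.sum_eq_zero fun j _ => by
        rw [← hf x j, hx]
        rfl
    · intro y
      have hy : ∀ j, (y j).1 ∈ U := fun j => hU j (y j).2
      refine ⟨⟨∑ j, (y j).1, Submodule.sum_mem _ fun j _ => hy j⟩, ?_⟩
      funext j
      refine Subtype.ext ?_
      rw [hf]
      show π j (∑ i, (y i).1) = (y j).1
      rw [map_sum, Finset.sum_eq_single j]
      · obtain ⟨a, _, ha⟩ := Submodule.mem_map.1 (y j).2
        rw [← ha, hπ.orth, if_pos rfl]
      · intro i _ hij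
        obtain ⟨a, _, ha⟩ := Submodule.mem_map.1 (y i).2
        rw [← ha, hπ.orth, if_neg (Ne.symm hij)]
      · intro h
        exact absurd (Finset.mem_univ j) h
  have h1 := (LinearEquiv.ofBijective f hbij).finrank_eq
  rw [Module.finrank_pi_fintype] at h1
  exact h1.symm

/-- the parts of two split complementary subtriples are complementary in the ideals -/
theorem split_parts (hπ : S.DecM π) {W : Submodule ℝ E} (hV : Spl π V) (hW : Spl π W)
    (h : Cp K V W) (j : Fin m) :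
    finrank ℝ (V.map (π j)) + finrank ℝ (W.map (π j)) = finrank ℝ (LinearMap.range (π j)) ∧
      ∀ k ∈ K, ∀ x ∈ V.map (π j), ∀ y ∈ W.map (π j), x = k.1 y → x = 0 := by
  refine ⟨?_, fun k hk x hx y hy => h.disj k hk x (hV j hx) y (hW j hy)⟩
  have hle : ∀ i ∈ (Finset.univ : Finset (Fin m)),
      finrank ℝ (V.map (π i)) + finrank ℝ (W.map (π i)) ≤ finrank ℝ (LinearMap.range (π i)) := by
    intro i _
    have h1 := Submodule.finrank_sup_add_finrank_inf_eq (V.map (π i)) (W.map (π i))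
    have h2 : V.map (π i) ⊓ W.map (π i) = ⊥ := by
      refine (Submodule.eq_bot_iff _).2 fun x hx => ?_
      exact h.disj 1 K.one_mem x (hV i hx.1) x (hW i hx.2) rfl
    rw [h2, finrank_bot, add_zero] at h1
    rw [← h1]
    exact Submodule.finrank_mono (sup_le LinearMap.map_le_range LinearMap.map_le_range)
  have hT : ∑ i, finrank ℝ (LinearMap.range (π i)) = finrank ℝ E := by
    have h1 := rig_dim hπ (U := ⊤) fun j => le_top
    rw [finrank_top] at h1
    rw [← h1]
    exact Finset.sum_congr rfl fun i _ => by rw [LinearMap.range_eq_map]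
  have hs : ∑ i, (finrank ℝ (V.map (π i)) + finrank ℝ (W.map (π i))) =
      ∑ i, finrank ℝ (LinearMap.range (π i)) := by
    rw [Finset.sum_add_distrib, rig_dim hπ hV, rig_dim hπ hW, hT, h.dim]
  exact (Finset.sum_eq_sum_iff_of_le hle).1 hs j (Finset.mem_univ j)

private theorem rig_sup {W : Submodule ℝ E} (h : Cp K V W) : V ⊔ W = ⊤ := by
  have h1 := Submodule.finrank_sup_add_finrank_inf_eq V W
  have h2 : V ⊓ W = ⊥ := by
    refine (Submodule.eq_bot_iff _).2 fun x hx => ?_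
    exact h.disj 1 K.one_mem x hx.1 x hx.2 rfl
  rw [h2, finrank_bot, add_zero, h.dim] at h1
  exact Submodule.eq_top_of_finrank_eq h1

theorem rigid_mp (hπ : S.DecM π) (hK : S.Grp K) (hfix : ∀ k ∈ K, ∀ c ∈ S.cen ⊤, k.1 c = c)
    (A : Finset (Fin m)) (hR : ∀ j ∉ A, Rig S K (LinearMap.range (π j))) (hV : S.Sub V)
    (h : ∃ W : Submodule ℝ E, S.Sub W ∧ Cp K V W) :
    ∃ J : Finset (Fin m), Disjoint J A ∧ (∀ z, ∃ x ∈ V, ∀ j ∈ J, π j x = π j z) ∧
      ∀ x ∈ V, (∀ j ∈ J, π j x = 0) → (∀ j ∈ A, π j x = 0) → x = 0 := by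
  classical
  obtain ⟨W₀, hW₀, h₀⟩ := h
  obtain ⟨W, hW, hWs, h1⟩ := final hπ hK hfix hV hW₀ h₀
  obtain ⟨V', hV', hVs', h2⟩ := final hπ hK hfix hW hV h1.symm
  have hdich : ∀ j ∉ A, V'.map (π j) = ⊥ ∨ W.map (π j) = ⊥ := by
    intro j hj
    obtain ⟨h3, h4⟩ := split_parts hπ hVs' hWs h2.symm j
    exact hR j hj _ _ (S.sub_map (hπ.hom j) hV') (S.sub_map (hπ.hom j) hW)
      LinearMap.map_le_range LinearMap.map_le_range h3 h4
  refine ⟨Finset.univ.filter fun j => j ∉ A ∧ W.map (π j) = ⊥, ?_, fun z => ?_,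
    fun x hx hJ hA => ?_⟩
  · rw [Finset.disjoint_left]
    intro j hj
    exact (Finset.mem_filter.1 hj).2.1
  · have hz : z ∈ V ⊔ W := by
      rw [rig_sup h1]
      trivial
    obtain ⟨x, hx, w, hw, rfl⟩ := Submodule.mem_sup.1 hz
    refine ⟨x, hx, fun j hj => ?_⟩
    have h3 : π j w ∈ W.map (π j) := Submodule.mem_map_of_mem hw
    rw [(Finset.mem_filter.1 hj).2.2, Submodule.mem_bot] at h3
    rw [map_add, h3, add_zero]
  · have hxW : x ∈ W := by
      rw [← hπ.sum x]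
      refine Submodule.sum_mem _ fun j _ => ?_
      by_cases hjA : j ∈ A
      · rw [hA j hjA]
        exact W.zero_mem
      by_cases hjW : W.map (π j) = ⊥
      · rw [hJ j (Finset.mem_filter.2 ⟨Finset.mem_univ j, hjA, hjW⟩)]
        exact W.zero_mem
      have hjV := (hdich j hjA).resolve_right hjW
      obtain ⟨h3, _⟩ := split_parts hπ hVs' hWs h2.symm j
      rw [hjV, finrank_bot, zero_add] at h3
      have h4 : W.map (π j) = LinearMap.range (π j) :=
        Submodule.eq_of_le_of_finrank_eq LinearMap.map_le_range h3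
      refine hWs j ?_
      rw [h4]
      exact LinearMap.mem_range_self _ x
    exact h1.disj 1 K.one_mem x hx x hxW rfl

theorem rigid_mpr (hπ : S.DecM π) (hK : S.Grp K) (hfix : ∀ k ∈ K, ∀ c ∈ S.cen ⊤, k.1 c = c)
    (A : Finset (Fin m)) (hA : ∀ j ∈ A, LinearMap.range (π j) ≤ S.cen ⊤)
    (h : ∃ J : Finset (Fin m), Disjoint J A ∧ (∀ z, ∃ x ∈ V, ∀ j ∈ J, π j x = π j z) ∧
      ∀ x ∈ V, (∀ j ∈ J, π j x = 0) → (∀ j ∈ A, π j x = 0) → x = 0) :
    ∃ W : Submodule ℝ E, S.Sub W ∧ Cp K V W := by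
  classical
  obtain ⟨J, hJA, hon, hin⟩ := h
  let F : Submodule ℝ E := ⨅ j ∈ (J ∪ A), LinearMap.ker (π j)
  have hF : ∀ x, x ∈ F ↔ ∀ j ∈ J ∪ A, π j x = 0 := fun x => by
    simp only [F, Submodule.mem_iInf, LinearMap.mem_ker]
  let C : Submodule ℝ E := ⨅ j ∈ Finset.univ \ A, LinearMap.ker (π j)
  have hC : ∀ x, x ∈ C ↔ ∀ j ∉ A, π j x = 0 := fun x => by
    simp only [C, Submodule.mem_iInf, LinearMap.mem_ker, Finset.mem_sdiff, Finset.mem_univ,
      true_and]
  have hCc : C ≤ S.cen ⊤ := by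
    intro x hx
    rw [← hπ.sum x]
    refine Submodule.sum_mem _ fun j _ => ?_
    by_cases hj : j ∈ A
    · exact hA j hj (LinearMap.mem_range_self _ x)
    · rw [(hC x).1 hx j hj]
      exact Submodule.zero_mem _
  let Y : Submodule ℝ E := C ⊓ S.perp (C ⊓ (V ⊔ F))
  have hYC : Y ≤ C := inf_le_left
  have hYsup : C ⊓ (V ⊔ F) ⊔ Y = C := S.decomp inf_le_left
  have hY0 : ∀ y ∈ Y, y ∈ V ⊔ F → y = 0 := by
    intro y hy hy'
    have h1 : y ∈ C ⊓ (V ⊔ F) := ⟨hYC hy, hy'⟩
    have h2 : y ∈ (C ⊓ (V ⊔ F)) ⊓ S.perp (C ⊓ (V ⊔ F)) := ⟨h1, hy.2⟩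
    rw [S.perp_inf] at h2
    exact (Submodule.mem_bot ℝ).1 h2
  have hYT : ∀ y ∈ Y, ∀ x, S.T y x = 0 := fun y hy x =>
    (mem_cen.1 (hCc (hYC hy))).2 x trivial
  have hcp : ∀ k ∈ K, ∀ x ∈ V, ∀ y ∈ F ⊔ Y, x = k.1 y → x = 0 := by
    intro k hk x hx y hy hxy
    obtain ⟨f, hf, y0, hy0, rfl⟩ := Submodule.mem_sup.1 hy
    rw [map_add, hfix k hk y0 (hCc (hYC hy0))] at hxy
    have hkf : k.1 f ∈ F := by
      rw [hF]
      intro j hj
      rw [kinv hπ hK hfix hk, (hF f).1 hf j hj, map_zero]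
    have hy1 : y0 ∈ V ⊔ F := by
      have h1 : y0 = x + -(k.1 f) := by
        rw [hxy]
        abel
      rw [h1]
      exact Submodule.add_mem_sup hx (Submodule.neg_mem _ hkf)
    rw [hY0 y0 hy0 hy1, add_zero] at hxy
    rw [← hxy] at hkf
    exact hin x hx (fun j hj => (hF x).1 hkf j (Finset.mem_union_left _ hj))
      fun j hj => (hF x).1 hkf j (Finset.mem_union_right _ hj)
  refine ⟨F ⊔ Y, ?_, hcp, ?_⟩
  · refine S.sub_sup ?_ ?_ fun x _ y hy => S.T_symm (hYT y hy x)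
    · intro x hx y _ z _
      rw [hF]
      intro j hj
      rw [hπ.hom j, (hF x).1 hx j hj, map_zero, LinearMap.zero_apply, LinearMap.zero_apply]
    · intro x hx y _ z _
      rw [hYT x hx y, LinearMap.zero_apply]
      exact Y.zero_mem
  · have h1 := Submodule.finrank_sup_add_finrank_inf_eq V (F ⊔ Y)
    have h2 : V ⊓ (F ⊔ Y) = ⊥ := by
      refine (Submodule.eq_bot_iff _).2 fun x hx => ?_
      exact hcp 1 K.one_mem x hx.1 x hx.2 rfl
    have h3 : V ⊔ (F ⊔ Y) = ⊤ := by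
      refine (Submodule.eq_top_iff').2 fun z => ?_
      obtain ⟨x, hx, hxz⟩ := hon z
      set c := ∑ j ∈ A, π j (z - x) with hc
      have hπc : ∀ i, π i c = if i ∈ A then π i (z - x) else 0 := by
        intro i
        rw [hc, map_sum]
        split_ifs with hi
        · rw [Finset.sum_eq_single i]
          · rw [hπ.orth, if_pos rfl]
          · intro l _ hl
            rw [hπ.orth, if_neg (Ne.symm hl)]
          · exact fun h => absurd hi h
        · refine Finset.sum_eq_zero fun l hl => ?_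
          rw [hπ.orth, if_neg fun h : i = l => hi (h ▸ hl)]
      have hcC : c ∈ C := by
        rw [hC]
        intro j hj
        rw [hπc, if_neg hj]
      have hf : z - x - c ∈ F := by
        rw [hF]
        intro j hj
        rw [map_sub, hπc]
        rcases Finset.mem_union.1 hj with hj | hj
        · have hjA : j ∉ A := Finset.disjoint_left.1 hJA hj
          rw [if_neg hjA, sub_zero, map_sub, hxz j hj, sub_self]
        · rw [if_pos hj, sub_self]
      have hcV : c ∈ V ⊔ (F ⊔ Y) := by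
        rw [← hYsup] at hcC
        obtain ⟨a, ha, y, hy, hay⟩ := Submodule.mem_sup.1 hcC
        rw [← hay]
        refine Submodule.add_mem _ ?_ (Submodule.mem_sup_right (Submodule.mem_sup_right hy))
        exact (sup_le_sup_left le_sup_left V : V ⊔ F ≤ V ⊔ (F ⊔ Y)) ha.2
      have hz : z = x + (z - x - c) + c := by abel
      rw [hz]
      exact Submodule.add_mem _ (Submodule.add_mem _ (Submodule.mem_sup_left hx)
        (Submodule.mem_sup_right (Submodule.mem_sup_left hf))) hcV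
    rw [h2, h3, finrank_bot, finrank_top, add_zero] at h1
    exact h1.symm

end LTS

end Pool.Agent.MP417P
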