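import Pool.Agent.Lib.MP_417c68_gt_P.I.Bridge
import Pool.Agent.Lib.MP_417c68_gt_P.I.Gv
import Pool.Agent.Lib.MP_417c68_gt_P.I.Fix

/-!
# MP_417c68_gt, project P, module J/Tr: translation between matrices and Lie triple systems

`B : Bdg G`.  `B.dn V` is the subspace of `B.E` which corresponds to `V ≤ pS G`, `B.up W` the
subspace of `Alg N` which corresponds to `W ≤ B.E`.

PROOFS.  Everything follows from `T_eq`, `ip_eq`, `act`, `act'` by transport.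
* `fix`: `c ∈ B.S.cen ⊤` corresponds to an element of `pp G` which commutes with `pp G`
  (`ip [x, y] [x, y] = 0` from `T_eq`, `ip_eq`), `fix_centre`, `act'`.
* `cp_iff`: `Cpl G H L` says `pp G = pp H ⊕ Ad(k) pp L` for all `k`: dimensions.
-/

noncomputable section

namespace Pool.Agent.MP_417c68_gt

open Matrix NormedSpace Pool.Agent.MP417P Module

variable {n : ℕ} {N : Fin n → ℕ} {G H L : Subgroup (Alg N)ˣ}

attribute [instance] Bdg.i1 Bdg.i2 Bdg.i3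

/-- the subspace of `B.E` corresponding to `V` -/
def Bdg.dn (B : Bdg G) (V : Submodule ℝ (Alg N)) : Submodule ℝ B.E :=
  (V.comap (pS G).subtype).map (B.φ : pS G →ₗ[ℝ] B.E)

/-- the subspace of `Alg N` corresponding to `W` -/
def Bdg.up (B : Bdg G) (W : Submodule ℝ B.E) : Submodule ℝ (Alg N) :=
  (W.map (B.φ.symm : B.E →ₗ[ℝ] pS G)).map (pS G).subtype

theorem Bdg.mem_dn (B : Bdg G) {V : Submodule ℝ (Alg N)} {x : pS G} :
    B.φ x ∈ B.dn V ↔ x.1 ∈ V := by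
  constructor
  · rintro ⟨y, hy, hyx⟩
    have h : y = x := B.φ.injective hyx
    rw [← h]
    exact hy
  · intro h
    exact ⟨x, h, rfl⟩

theorem Bdg.mem_up (B : Bdg G) {W : Submodule ℝ B.E} {X : Alg N} :
    X ∈ B.up W ↔ ∃ h : X ∈ pS G, B.φ ⟨X, h⟩ ∈ W := by
  constructor
  · rintro ⟨y, ⟨w, hw, rfl⟩, rfl⟩
    refine ⟨(B.φ.symm w).2, ?_⟩
    show B.φ (B.φ.symm w) ∈ W
    rw [LinearEquiv.apply_symm_apply]
    exact hw
  · rintro ⟨h, hW⟩
    exact ⟨⟨X, h⟩, ⟨_, hW, B.φ.symm_apply_apply _⟩, rfl⟩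

theorem Bdg.up_le (B : Bdg G) (W : Submodule ℝ B.E) : B.up W ≤ pS G := by
  intro X hX
  exact (B.mem_up.1 hX).1

theorem Bdg.dn_up (B : Bdg G) (W : Submodule ℝ B.E) : B.dn (B.up W) = W := by
  ext z
  have h1 : z ∈ B.dn (B.up W) ↔ (B.φ.symm z).1 ∈ B.up W := by
    rw [← B.mem_dn, LinearEquiv.apply_symm_apply]
  rw [h1, B.mem_up]
  constructor
  · rintro ⟨h, hW⟩
    have h2 : B.φ (B.φ.symm z) ∈ W := hW
    rw [LinearEquiv.apply_symm_apply] at h2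
    exact h2
  · intro h
    refine ⟨(B.φ.symm z).2, ?_⟩
    show B.φ (B.φ.symm z) ∈ W
    rw [LinearEquiv.apply_symm_apply]
    exact h

theorem Bdg.up_dn (B : Bdg G) {V : Submodule ℝ (Alg N)} (hV : V ≤ pS G) : B.up (B.dn V) = V := by
  ext X
  rw [B.mem_up]
  constructor
  · rintro ⟨h, hX⟩
    exact B.mem_dn.1 hX
  · intro h
    exact ⟨hV h, B.mem_dn.2 h⟩

theorem Bdg.finrank_up (B : Bdg G) (W : Submodule ℝ B.E) : finrank ℝ (B.up W) = finrank ℝ W := by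
  rw [Bdg.up, Submodule.finrank_map_subtype_eq]
  exact LinearEquiv.finrank_map_eq B.φ.symm W

private theorem tr_finrank_dn (B : Bdg G) {V : Submodule ℝ (Alg N)} (hV : V ≤ pS G) :
    finrank ℝ (B.dn V) = finrank ℝ V := by
  rw [← B.finrank_up, B.up_dn hV]

private theorem tr_lift (B : Bdg G) {W : Submodule ℝ B.E} {w : B.E} (hw : w ∈ W) :
    ∃ x : pS G, B.φ x = w ∧ B.φ x ∈ W :=
  ⟨B.φ.symm w, B.φ.apply_symm_apply w, by
    rw [LinearEquiv.apply_symm_apply]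
    exact hw⟩

theorem Bdg.dn_sub (hG : SelfAdj G) (B : Bdg G) {V : Submodule ℝ (Alg N)} (hV : Trp V)
    (hVG : V ≤ pS G) : B.S.Sub (B.dn V) := by
  intro x hx y hy z hz
  obtain ⟨x, rfl, hx'⟩ := tr_lift B hx
  obtain ⟨y, rfl, hy'⟩ := tr_lift B hy
  obtain ⟨z, rfl, hz'⟩ := tr_lift B hz
  have h1 := B.T_eq x y z
  have h2 : B.φ (B.φ.symm (B.S.T (B.φ x) (B.φ y) (B.φ z))) ∈ B.dn V := by
    rw [B.mem_dn, h1]
    exact hV.tri _ (B.mem_dn.1 hx') _ (B.mem_dn.1 hy') _ (B.mem_dn.1 hz')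
  rw [LinearEquiv.apply_symm_apply] at h2
  exact h2

theorem Bdg.up_trp (hG : SelfAdj G) (B : Bdg G) {W : Submodule ℝ B.E} (hW : B.S.Sub W) :
    Trp (B.up W) := by
  refine ⟨fun X hX => ((mem_pS hG.closed).1 (B.up_le W hX)).1, fun X hX Y hY Z hZ => ?_⟩
  obtain ⟨hX1, hX2⟩ := B.mem_up.1 hX
  obtain ⟨hY1, hY2⟩ := B.mem_up.1 hY
  obtain ⟨hZ1, hZ2⟩ := B.mem_up.1 hZ
  have h1 := B.T_eq ⟨X, hX1⟩ ⟨Y, hY1⟩ ⟨Z, hZ1⟩
  rw [← h1, B.mem_up]
  refine ⟨(B.φ.symm (B.S.T (B.φ ⟨X, hX1⟩) (B.φ ⟨Y, hY1⟩) (B.φ ⟨Z, hZ1⟩))).2, ?_⟩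
  show B.φ (B.φ.symm (B.S.T (B.φ ⟨X, hX1⟩) (B.φ ⟨Y, hY1⟩) (B.φ ⟨Z, hZ1⟩))) ∈ W
  rw [LinearEquiv.apply_symm_apply]
  exact hW _ hX2 _ hY2 _ hZ2

private theorem tr_br_sym {X Y : Alg N} (hX : ∀ i, (X i)ᵀ = X i) (hY : ∀ i, (Y i)ᵀ = Y i)
    (i : Fin n) : ((br X Y) i)ᵀ = -((br X Y) i) := by
  show (X i * Y i - Y i * X i)ᵀ = -(X i * Y i - Y i * X i)
  rw [Matrix.transpose_sub, Matrix.transpose_mul, Matrix.transpose_mul, hX i, hY i, neg_sub]

theorem trp_pS (hH : SelfAdj H) : Trp (pS H) := by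
  refine ⟨fun X hX => ((mem_pS hH.closed).1 hX).1, fun X hX Y hY Z hZ => ?_⟩
  have hX' := (mem_pS hH.closed).1 hX
  have hY' := (mem_pS hH.closed).1 hY
  have hZ' := (mem_pS hH.closed).1 hZ
  refine (mem_pS hH.closed).2 ⟨fun i => ?_, lie_br hH.closed (lie_br hH.closed hX'.2 hY'.2) hZ'.2⟩
  have h1 := tr_br_sym hX'.1 hY'.1 i
  show ((br X Y) i * Z i - Z i * (br X Y) i)ᵀ = (br X Y) i * Z i - Z i * (br X Y) i
  rw [Matrix.transpose_sub, Matrix.transpose_mul, Matrix.transpose_mul, h1, hZ'.1 i, mul_neg,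
    neg_mul]
  abel

private theorem tr_ip_br (W X Y : Alg N) : ip (br W X) Y = ip W (br X Y) := by
  unfold ip
  refine Finset.sum_congr rfl fun i _ => ?_
  show ((W i * X i - X i * W i) * Y i).trace = (W i * (X i * Y i - Y i * X i)).trace
  rw [sub_mul, mul_sub, Matrix.trace_sub, Matrix.trace_sub, mul_assoc, mul_assoc,
    Matrix.trace_mul_comm (X i) (W i * Y i), mul_assoc]

private theorem tr_skew_zero {W : Alg N} (h : ∀ i, (W i)ᵀ = -(W i)) (h0 : ip W W = 0) :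
    W = 0 := by
  have h1 : ip W W = ∑ i, -((W i)ᵀ * W i).trace := by
    unfold ip
    refine Finset.sum_congr rfl fun i _ => ?_
    rw [h i, neg_mul, Matrix.trace_neg, neg_neg]
  rw [h1, Finset.sum_neg_distrib, neg_eq_zero,
    Finset.sum_eq_zero_iff_of_nonneg fun i _ => fr_nonneg' (W i)] at h0
  funext i
  have h2 := h0 i (Finset.mem_univ i)
  rw [← Matrix.conjTranspose_eq_transpose_of_trivial] at h2
  exact Matrix.trace_conjTranspose_mul_self_eq_zero_iff.1 h2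

theorem Bdg.fix (hG : SelfAdj G) (hK : Kconn G) (B : Bdg G) :
    ∀ k ∈ B.K, ∀ c ∈ B.S.cen ⊤, k.1 c = c := by
  intro u hu c hc
  obtain ⟨k, hk, ho, hact⟩ := B.act' u hu
  obtain ⟨x, rfl, -⟩ := tr_lift B (Submodule.mem_top : c ∈ (⊤ : Submodule ℝ B.E))
  have hx := (mem_pS hG.closed).1 x.2
  have h1 : ∀ y : pS G, br x.1 y.1 = 0 := by
    intro y
    have hy := (mem_pS hG.closed).1 y.2
    have h2 := B.T_eq x y y
    rw [(LTS.mem_cen.1 hc).2 (B.φ y) Submodule.mem_top, LinearMap.zero_apply, map_zero] at h2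
    refine tr_skew_zero (tr_br_sym hx.1 hy.1) ?_
    rw [tr_ip_br]
    have h3 : br y.1 (br x.1 y.1) = -br (br x.1 y.1) y.1 := by
      unfold br
      rw [neg_sub]
    rw [h3, ← h2, Submodule.coe_zero, neg_zero, ip_comm, ip_zero_left]
  have h4 : ∀ Y ∈ pp G, x.1 * Y = Y * x.1 := by
    intro Y hY
    exact sub_eq_zero.1 (h1 ⟨Y, (mem_pS hG.closed).2 hY⟩)
  have h5 := fix_centre hG hK hx h4 hk ho
  have h6 := hact x
  rw [h5] at h6
  have h7 : B.φ.symm (u.1 (B.φ x)) = x := Subtype.ext h6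
  rw [← LinearEquiv.symm_apply_eq]
  exact h7

/-- complementarity of subspaces -/
theorem Bdg.disj_iff (B : Bdg G) {V W : Submodule ℝ (Alg N)} (hV : V ≤ pS G) (hW : W ≤ pS G) :
    (∀ k ∈ B.K, ∀ x ∈ B.dn V, ∀ y ∈ B.dn W, x = k.1 y → x = 0) ↔
      ∀ k ∈ G, Orth k → ∀ x ∈ V, ∀ y ∈ W, x = cA k y → x = 0 := by
  constructor
  · intro h k hk ho x hx y hy hxy
    obtain ⟨u, hu, hact⟩ := B.act k hk ho
    have h1 := hact ⟨y, hW hy⟩
    rw [← hxy] at h1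
    have h2 : B.φ.symm (u.1 (B.φ ⟨y, hW hy⟩)) = ⟨x, hV hx⟩ := Subtype.ext h1
    have h3 := h u hu (B.φ ⟨x, hV hx⟩) (B.mem_dn.2 hx) (B.φ ⟨y, hW hy⟩) (B.mem_dn.2 hy)
      ((LinearEquiv.symm_apply_eq B.φ).1 h2).symm
    rw [LinearEquiv.map_eq_zero_iff] at h3
    exact congrArg Subtype.val h3
  · intro h u hu x hx y hy hxy
    obtain ⟨x, rfl, hx'⟩ := tr_lift B hx
    obtain ⟨y, rfl, hy'⟩ := tr_lift B hy
    obtain ⟨k, hk, ho, hact⟩ := B.act' u hu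
    have h1 := hact y
    rw [← hxy, LinearEquiv.symm_apply_apply] at h1
    have h2 := h k hk ho x.1 (B.mem_dn.1 hx') y.1 (B.mem_dn.1 hy') h1
    rw [LinearEquiv.map_eq_zero_iff]
    exact Subtype.ext h2

theorem Bdg.cp_iff (hG : SelfAdj G) (B : Bdg G) (hH : SelfAdj H) (hHG : H ≤ G) (hL : SelfAdj L)
    (hLG : L ≤ G) : LTS.Cp B.K (B.dn (pS H)) (B.dn (pS L)) ↔ Cpl G H L := by
  have hV : pS H ≤ pS G := fun X hX =>
    (mem_pS hG.closed).2 (pp_mono hHG ((mem_pS hH.closed).1 hX))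
  have hW : pS L ≤ pS G := fun X hX =>
    (mem_pS hG.closed).2 (pp_mono hLG ((mem_pS hL.closed).1 hX))
  have hE : finrank ℝ B.E = finrank ℝ (pS G) := B.φ.finrank_eq.symm
  have hWk : ∀ k ∈ G, Orth k → (pS L).map (cL k) ≤ pS G := by
    rintro k hk ho _ ⟨y, hy, rfl⟩
    exact (mem_pS hG.closed).2 (pp_cA hk ho (pp_mono hLG ((mem_pS hL.closed).1 hy)))
  have hfk : ∀ k : (Alg N)ˣ, finrank ℝ ((pS L).map (cL k)) = finrank ℝ (pS L) := by
    intro k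
    refine (LinearEquiv.finrank_eq (Submodule.equivMapOfInjective (cL k) ?_ (pS L))).symm
    intro x y hxy
    have h1 : cA k⁻¹ (cA k x) = cA k⁻¹ (cA k y) := congrArg (cA k⁻¹) hxy
    rw [cA_inv_cA, cA_inv_cA] at h1
    exact h1
  constructor
  · intro h
    have h1 := (B.disj_iff hV hW).1 h.disj
    have h2 := h.dim
    rw [tr_finrank_dn B hV, tr_finrank_dn B hW, hE] at h2
    intro k hk ho
    refine ⟨fun x hx y hy hxy => h1 k hk ho x ((mem_pS hH.closed).2 hx) y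
      ((mem_pS hL.closed).2 hy) hxy, fun z hz => ?_⟩
    have hdisj : pS H ⊓ (pS L).map (cL k) = ⊥ := by
      rw [Submodule.eq_bot_iff]
      rintro x ⟨hx, y, hy, hxy⟩
      exact h1 k hk ho x hx y hy hxy.symm
    have e1 := Submodule.finrank_sup_add_finrank_inf_eq (pS H) ((pS L).map (cL k))
    rw [hdisj, finrank_bot, add_zero, hfk] at e1
    have e4 : pS H ⊔ (pS L).map (cL k) = pS G :=
      Submodule.eq_of_le_of_finrank_le (sup_le hV (hWk k hk ho)) (by omega)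
    have hz' : z ∈ pS H ⊔ (pS L).map (cL k) := by
      rw [e4]
      exact (mem_pS hG.closed).2 hz
    obtain ⟨x, hx, w, ⟨y, hy, rfl⟩, rfl⟩ := Submodule.mem_sup.1 hz'
    exact ⟨x, (mem_pS hH.closed).1 hx, y, (mem_pS hL.closed).1 hy, rfl⟩
  · intro h
    refine ⟨(B.disj_iff hV hW).2 fun k hk ho x hx y hy hxy =>
      (h k hk ho).1 x ((mem_pS hH.closed).1 hx) y ((mem_pS hL.closed).1 hy) hxy, ?_⟩
    rw [tr_finrank_dn B hV, tr_finrank_dn B hW, hE]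
    obtain ⟨h1, h2⟩ := h 1 G.one_mem orth_one
    have hdisj : pS H ⊓ pS L = ⊥ := by
      rw [Submodule.eq_bot_iff]
      rintro x ⟨hx, hy⟩
      exact h1 x ((mem_pS hH.closed).1 hx) x ((mem_pS hL.closed).1 hy) (cA_one x).symm
    have e1 := Submodule.finrank_sup_add_finrank_inf_eq (pS H) (pS L)
    rw [hdisj, finrank_bot, add_zero] at e1
    have e2 : pS H ⊔ pS L = pS G := by
      refine le_antisymm (sup_le hV hW) fun X hX => ?_
      obtain ⟨x, hx, y, hy, e⟩ := h2 X ((mem_pS hG.closed).1 hX)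
      rw [e, cA_one]
      exact Submodule.add_mem_sup ((mem_pS hH.closed).2 hx) ((mem_pS hL.closed).2 hy)
    rw [← e1, e2]

/-- Lie triples in `𝔭(G)` and self-adjoint subgroups -/
theorem Bdg.exists_grp (hG : SelfAdj G) (B : Bdg G) {W : Submodule ℝ B.E} (hW : B.S.Sub W) :
    ∃ A : Subgroup (Alg N)ˣ, A ≤ G ∧ SelfAdj A ∧ B.dn (pS A) = W := by
  obtain ⟨A, h1, h2, h3⟩ := gv (V := B.up W) hG
    (fun X hX => (mem_pS hG.closed).1 (B.up_le W hX)) (B.up_trp hG hW)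
  refine ⟨A, h1, h2, ?_⟩
  have h4 : pS A = B.up W := by
    ext X
    rw [mem_pS h2.closed]
    exact h3 X
  rw [h4, B.dn_up]

end Pool.Agent.MP_417c68_gt
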